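import Pool.Agent.Helper17_EU.StmtsT

/-! # Module ARC of the squad MP_0dbebf_gt

Connected sets of `Y S` can be approximated by arcs in `Y S`. -/

open Set Metric Topology unitInterval Filter

noncomputable section

namespace Pool.Agent.EU.H55

universe u v

variable {X : Type u} [MetricSpace X] {ι : Type v}

/-- chains with steps less than `δ` in `C` -/
def Chn (C : Set X) (δ : ℝ) (p q : X) : Prop :=
  ∃ (n : ℕ) (c : ℕ → X), c 0 = p ∧ (∀ i, n ≤ i → c i = q) ∧ (∀ i, c i ∈ C) ∧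
    ∀ i, dist (c i) (c (i + 1)) < δ

theorem chn_two {C : Set X} {δ : ℝ} (hδ : 0 < δ) {p q : X} (hp : p ∈ C) (hq : q ∈ C)
    (h : dist p q < δ) : Chn C δ p q := by
  refine ⟨1, fun i => if i = 0 then p else q, by simp, ?_, ?_, ?_⟩
  · intro i hi
    have : i ≠ 0 := by omega
    simp [this]
  · intro i
    by_cases h0 : i = 0 <;> simp [h0, hp, hq]
  · intro i
    by_cases h0 : i = 0
    · simp [h0, h]
    · simp [h0, hδ]

theorem chn_trans {C : Set X} {δ : ℝ} {p q r : X} (h1 : Chn C δ p q) (h2 : Chn C δ q r) :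
    Chn C δ p r := by
  obtain ⟨n, c, hc0, hcn, hcC, hcd⟩ := h1
  obtain ⟨m, d, hd0, hdm, hdC, hdd⟩ := h2
  refine ⟨n + m, fun i => if i < n then c i else d (i - n), ?_, ?_, ?_, ?_⟩
  · by_cases h : 0 < n
    · simp [h, hc0]
    · have h0 : n = 0 := by omega
      have : p = q := by rw [← hc0, ← hcn 0 (by omega)]
      simp [h0, hd0, this]
  · intro i hi
    have h1 : ¬ i < n := by omega
    simp only [h1, if_false]
    exact hdm _ (by omega)
  · intro i
    by_cases h : i < n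
    · simp [h, hcC]
    · simp [h, hdC]
  · intro i
    by_cases h : i < n
    · by_cases h' : i + 1 < n
      · simp [h, h', hcd]
      · have h2 : i + 1 = n := by omega
        have h3 := hcd i
        rw [h2, hcn n le_rfl] at h3
        simp only [h, if_true, h2, Nat.sub_self, hd0, lt_irrefl, if_false]
        exact h3
    · have h' : ¬ i + 1 < n := by omega
      simp only [h, if_false, h']
      have h2 : i + 1 - n = (i - n) + 1 := by omega
      rw [h2]
      exact hdd _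

theorem chn_of_preconnected {C : Set X} (hC : IsPreconnected C) {δ : ℝ} (hδ : 0 < δ) {p q : X}
    (hp : p ∈ C) (hq : q ∈ C) : Chn C δ p q := by
  refine hC.induction₂' (Chn C δ) ?_ ?_ hp hq
  · intro x hx
    have h1 : ∀ᶠ y in 𝓝[C] x, y ∈ ball x δ :=
      mem_nhdsWithin_of_mem_nhds (ball_mem_nhds x hδ)
    filter_upwards [h1, self_mem_nhdsWithin] with y hy hyC
    have hy' : dist y x < δ := hy
    exact ⟨chn_two hδ hx hyC (by rw [dist_comm]; exact hy'), chn_two hδ hyC hx hy'⟩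
  · intro x y z _ _ _ h1 h2
    exact chn_trans h1 h2

/-- the approximations: sequences of points such that consecutive points are joined by small
connected sets in `Y` -/
structure Lvl (Y : Set X) (x y : X) (η : ℝ) where
  N : ℕ
  a : ℕ → X
  hN : 0 < N
  h0 : a 0 = x
  h1 : ∀ i, N ≤ i → a i = y
  h2 : ∀ i, ∃ C ⊆ Y, IsPreconnected C ∧ a i ∈ C ∧ a (i + 1) ∈ C ∧ Small η C

theorem refine_exists {Y : Set X} {x y : X} {η η' δ : ℝ} (hδ : 0 < δ)
    (hY : ∀ C ⊆ Y, IsPreconnected C → ∀ p ∈ C, ∀ q ∈ C, dist p q < δ →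
      ∃ C' ⊆ Y, IsPreconnected C' ∧ p ∈ C' ∧ q ∈ C' ∧ Small η' C')
    (L : Lvl Y x y η) : ∃ (L' : Lvl Y x y η') (M : ℕ), 0 < M ∧ L'.N = L.N * M ∧
      ∀ m, dist (L'.a m) (L.a (m / M)) ≤ η := by
  have key : ∀ i, ∃ (n : ℕ) (c : ℕ → X) (C : Set X), c 0 = L.a i ∧
      (∀ j, n ≤ j → c j = L.a (i + 1)) ∧ C ⊆ Y ∧ IsPreconnected C ∧ (∀ j, c j ∈ C) ∧
      (∀ j, dist (c j) (c (j + 1)) < δ) ∧ (L.N ≤ i → n = 0) ∧ Small η C := by
    intro i
    obtain ⟨C, hCY, hC, h1, h2, h3⟩ := L.h2 i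
    by_cases hi : L.N ≤ i
    · refine ⟨0, fun _ => y, C, (L.h1 i hi).symm, ?_, hCY, hC, ?_, ?_, ?_, h3⟩
      · intro j _
        exact (L.h1 (i + 1) (by omega)).symm
      · intro j
        rw [L.h1 i hi] at h1
        exact h1
      · intro j
        simp [hδ]
      · intro _
        rfl
    · obtain ⟨n, c, hc0, hcn, hcC, hcd⟩ := chn_of_preconnected hC hδ h1 h2
      exact ⟨n, c, C, hc0, hcn, hCY, hC, hcC, hcd, fun h => absurd h hi, h3⟩
  choose n c C hc0 hcn hCY hC hcC hcd hn hs using key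
  obtain ⟨M, hM0, hM⟩ : ∃ M, 0 < M ∧ ∀ i, n i ≤ M := by
    refine ⟨(Finset.range L.N).sup n + 1, by omega, ?_⟩
    intro i
    by_cases hi : L.N ≤ i
    · rw [hn i hi]
      omega
    · have : n i ≤ (Finset.range L.N).sup n := Finset.le_sup (by simpa using hi)
      omega
  have step : ∀ m, c ((m + 1) / M) ((m + 1) % M) = c (m / M) (m % M + 1) := by
    intro m
    have hj : m % M < M := Nat.mod_lt _ hM0
    have hm : M * (m / M) + m % M = m := Nat.div_add_mod m M
    by_cases h : m % M + 1 < M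
    · have e1 : (m + 1) / M = m / M := by
        rw [← hm, add_assoc, Nat.mul_add_div hM0, Nat.mul_add_div hM0,
          Nat.div_eq_of_lt h, Nat.div_eq_of_lt hj]
      have e2 : (m + 1) % M = m % M + 1 := by
        conv_lhs => rw [← hm, add_assoc, Nat.mul_add_mod, Nat.mod_eq_of_lt h]
      rw [e1, e2]
    · have h' : m % M + 1 = M := by omega
      have e0 : m + 1 = M * (m / M + 1) := by
        rw [mul_add, mul_one]
        omega
      have e1 : (m + 1) / M = m / M + 1 := by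
        rw [e0, Nat.mul_div_cancel_left _ hM0]
      have e2 : (m + 1) % M = 0 := by
        rw [e0, Nat.mul_mod_right]
      rw [e1, e2, h', hc0, hcn _ _ (hM _)]
  refine ⟨⟨L.N * M, fun m => c (m / M) (m % M), Nat.mul_pos L.hN hM0, ?_, ?_, ?_⟩, M, hM0, rfl, ?_⟩
  · simp [hc0, L.h0]
  · intro i hi
    have h1 : L.N ≤ i / M := (Nat.le_div_iff_mul_le hM0).mpr hi
    rw [hcn _ _ (by rw [hn _ h1]; omega), L.h1 _ (by omega)]
  · intro m
    simp only [step]
    exact hY (C (m / M)) (hCY _) (hC _) _ (hcC _ _) _ (hcC _ _) (hcd _ _)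
  · intro m
    have h1 : L.a (m / M) ∈ C (m / M) := by
      rw [← hc0]
      exact hcC _ _
    exact hs _ _ (hcC _ _) _ h1

variable [CompactSpace X]

theorem exists_path {Y : Set X} (hYc : IsClosed Y) {x y : X}
    (hY : ∀ η > 0, ∃ δ > 0, ∀ C ⊆ Y, IsPreconnected C → ∀ p ∈ C, ∀ q ∈ C, dist p q < δ →
      ∃ C' ⊆ Y, IsPreconnected C' ∧ p ∈ C' ∧ q ∈ C' ∧ Small η C')
    {C : Set X} (hCY : C ⊆ Y) (hC : IsPreconnected C) (hx : x ∈ C) (hy : y ∈ C) {ε : ℝ}
    (hε : 0 < ε) : ∃ f : C(I, X), f 0 = x ∧ f 1 = y ∧ range f ⊆ Y ∩ thickening ε C := by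
  set K : ℝ := ε / 2 with hK
  have hK0 : 0 < K := by positivity
  set η : ℕ → ℝ := fun k => K / 2 / 2 ^ k with hη
  have hη0 : ∀ k, 0 < η k := fun k => by positivity
  choose δ hδ0 hδ using fun k => hY (η k) (hη0 k)
  -- level zero
  obtain ⟨L0, hL0⟩ : ∃ L0 : Lvl Y x y (η 0), ∀ i, L0.a i ∈ C := by
    obtain ⟨n, c, hc0, hcn, hcC, hcd⟩ := chn_of_preconnected hC (hδ0 0) hx hy
    refine ⟨⟨n + 1, c, by omega, hc0, fun i hi => hcn i (by omega), ?_⟩, hcC⟩
    intro i
    exact hδ 0 C hCY hC _ (hcC i) _ (hcC (i + 1)) (hcd i)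
  have ref : ∀ k (L : Lvl Y x y (η k)), ∃ (L' : Lvl Y x y (η (k + 1))) (M : ℕ), 0 < M ∧
      L'.N = L.N * M ∧ ∀ m, dist (L'.a m) (L.a (m / M)) ≤ η k := by
    intro k L
    exact refine_exists (hδ0 (k + 1)) (hδ (k + 1)) L
  let F : ∀ k, Lvl Y x y (η k) := fun k =>
    Nat.rec L0 (fun k L => (ref k L).choose) k
  have hF0 : F 0 = L0 := rfl
  have hF : ∀ k, ∃ M : ℕ, 0 < M ∧ (F (k + 1)).N = (F k).N * M ∧
      ∀ m, dist ((F (k + 1)).a m) ((F k).a (m / M)) ≤ η k :=
    fun k => (ref k (F k)).choose_spec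
  -- the step functions
  let g : ℕ → ℝ → X := fun k t => (F k).a ⌊t * (F k).N⌋₊
  have hg : ∀ t k, dist (g k t) (g (k + 1) t) ≤ η k := by
    intro t k
    obtain ⟨M, hM0, hN, hd⟩ := hF k
    have hM0' : (M : ℝ) ≠ 0 := by positivity
    have e : ⌊t * (F (k + 1)).N⌋₊ / M = ⌊t * (F k).N⌋₊ := by
      rw [← Nat.floor_div_natCast, hN]
      push_cast
      congr 1
      field_simp
    have := hd ⌊t * (F (k + 1)).N⌋₊
    rw [e] at this
    rw [dist_comm]
    exact this
  have hcau : ∀ t, ∃ z, Tendsto (fun k => g k t) atTop (𝓝 z) := fun t =>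
    cauchySeq_tendsto_of_complete (cauchySeq_of_le_geometric_two (hg t))
  choose f hf using hcau
  have hfd : ∀ t k, dist (g k t) (f t) ≤ K / 2 ^ k := fun t k =>
    dist_le_of_le_geometric_two_of_tendsto (hg t) (hf t) k
  have gstep : ∀ (k : ℕ) (s t : ℝ), s ≤ t → t - s < 1 / (F k).N → 0 ≤ s → dist (g k s) (g k t) ≤ η k := by
    intro k s t hst hd hs
    have hN0 : (0 : ℝ) < (F k).N := by exact_mod_cast (F k).hN
    have h1 : ⌊s * (F k).N⌋₊ ≤ ⌊t * (F k).N⌋₊ :=
      Nat.floor_le_floor (mul_le_mul_of_nonneg_right hst hN0.le)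
    have h2 : ⌊t * (F k).N⌋₊ ≤ ⌊s * (F k).N⌋₊ + 1 := by
      rw [← Nat.floor_add_one (by positivity)]
      apply Nat.floor_le_floor
      have := mul_lt_mul_of_pos_right hd hN0
      rw [one_div, inv_mul_cancel₀ hN0.ne'] at this
      nlinarith
    obtain ⟨C', _, _, c1, c2, c3⟩ := (F k).h2 ⌊s * (F k).N⌋₊
    rcases (by omega : ⌊t * (F k).N⌋₊ = ⌊s * (F k).N⌋₊ ∨
      ⌊t * (F k).N⌋₊ = ⌊s * (F k).N⌋₊ + 1) with h | h
    · simp only [g, h]
      rw [dist_self]
      exact (hη0 k).le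
    · simp only [g, h]
      exact c3 _ c1 _ c2
  have fstep : ∀ (k : ℕ) (s t : ℝ), s ≤ t → t - s < 1 / (F k).N → 0 ≤ s →
      dist (f s) (f t) ≤ 3 * K / 2 ^ k := by
    intro k s t hst hd hs
    have h1 := hfd s k
    have h2 := hfd t k
    have h3 := gstep k s t hst hd hs
    have h4 : η k ≤ K / 2 ^ k := by
      simp only [hη]
      rw [div_div, mul_comm, ← div_div]
      exact half_le_self (by positivity)
    calc dist (f s) (f t) ≤ dist (f s) (g k s) + dist (g k s) (g k t) + dist (g k t) (f t) :=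
          dist_triangle4 _ _ _ _
      _ ≤ K / 2 ^ k + K / 2 ^ k + K / 2 ^ k := by
          rw [dist_comm (f s)]
          gcongr
          exact h3.trans h4
      _ = 3 * K / 2 ^ k := by ring
  have fcont : Continuous (fun t : I => f t) := by
    rw [Metric.continuous_iff]
    intro b e he
    obtain ⟨k, hk⟩ : ∃ k : ℕ, 3 * K / 2 ^ k < e := by
      obtain ⟨k, hk⟩ := pow_unbounded_of_one_lt (3 * K / e) (by norm_num : (1 : ℝ) < 2)
      refine ⟨k, ?_⟩
      rw [div_lt_iff₀ (by positivity)]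
      rw [div_lt_iff₀ he] at hk
      linarith
    have hN0 : (0 : ℝ) < (F k).N := by exact_mod_cast (F k).hN
    refine ⟨1 / (F k).N, by positivity, ?_⟩
    intro a hab
    rw [Subtype.dist_eq, Real.dist_eq, abs_lt] at hab
    rcases le_total (a : ℝ) b with h | h
    · exact (fstep k a b h (by linarith [hab.1]) a.2.1).trans_lt hk
    · rw [dist_comm]
      exact (fstep k b a h (by linarith [hab.2]) b.2.1).trans_lt hk
  refine ⟨⟨fun t : I => f t, fcont⟩, ?_, ?_, ?_⟩
  · have h1 : ∀ k, g k 0 = x := by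
      intro k
      simp only [g, zero_mul, Nat.floor_zero]
      exact (F k).h0
    have h2 : Tendsto (fun k => g k 0) atTop (𝓝 x) := by
      simp only [h1]
      exact tendsto_const_nhds
    have := tendsto_nhds_unique (hf 0) h2
    simpa using this
  · have h1 : ∀ k, g k 1 = y := by
      intro k
      simp only [g, one_mul, Nat.floor_natCast]
      exact (F k).h1 _ le_rfl
    have h2 : Tendsto (fun k => g k 1) atTop (𝓝 y) := by
      simp only [h1]
      exact tendsto_const_nhds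
    have := tendsto_nhds_unique (hf 1) h2
    simpa using this
  · rintro _ ⟨t, rfl⟩
    refine ⟨?_, ?_⟩
    · refine hYc.mem_of_tendsto (hf t) (Eventually.of_forall fun k => ?_)
      obtain ⟨C', h1, _, h2, _⟩ := (F k).h2 ⌊(t : ℝ) * (F k).N⌋₊
      exact h1 h2
    · rw [mem_thickening_iff]
      refine ⟨g 0 t, hL0 _, ?_⟩
      have := hfd t 0
      rw [dist_comm]
      refine lt_of_le_of_lt this ?_
      simp only [pow_zero, div_one, hK]
      linarith

omit [CompactSpace X] in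
theorem isClosed_Y (𝓔 : EdgeSys X ι) (S : Set ι) : IsClosed (𝓔.Y S) := by
  unfold EdgeSys.Y
  rw [isClosed_compl_iff]
  exact isOpen_biUnion fun i _ => 𝓔.opn i

/-- ARC -/
theorem arc (𝓔 : EdgeSys X ι) (hY1 : 𝓔.Y1Stmt) (hPA : PathArcStmt X) : 𝓔.ArcStmt := by
  intro S hS C hCY hC x hx y hy hxG hyG hxy ε hε
  obtain ⟨f, hf0, hf1, hfr⟩ := exists_path (isClosed_Y 𝓔 S) (x := x) (y := y) (fun η hη => by
    obtain ⟨δ, hδ, h⟩ := hY1 S hS η hη
    refine ⟨δ, hδ, fun C' hC' hC'' p hp q hq hpq => ?_⟩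
    exact h p q (hC' hp) (hC''.subset_connectedComponentIn hp hC' hq) hpq) hCY hC hx hy hε
  obtain ⟨g, hg, hg0, hg1, hgr⟩ := hPA f (by rw [hf0, hf1]; exact hxy)
  refine ⟨⟨g, hg, ?_, ?_⟩, ?_, ?_, ?_⟩
  · rw [hg0, hf0]
    exact hxG
  · rw [hg1, hf1]
    exact hyG
  · rw [hg0, hf0]
  · rw [hg1, hf1]
  · exact hgr.trans hfr

end Pool.Agent.EU.H55
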