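import Mathlib

/-! # Glueing countably many paths along a linear order

Abstract limit lemma for the module LIMIT of the squad MP_0dbebf_gt. -/

open Set Metric Topology unitInterval Filter MeasureTheory

noncomputable section

namespace Pool.Agent.EU.H55

universe u v

/-- positive weights with sum one -/
theorem exists_weights (J : Type v) [Countable J] [Nonempty J] :
    ∃ w : J → ℝ, (∀ x, 0 < w x) ∧ HasSum w 1 := by
  obtain ⟨e, he⟩ := Countable.exists_injective_nat J
  have hs : Summable (fun x : J => ((1 : ℝ) / 2) ^ (e x)) :=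
    summable_geometric_two.comp_injective he
  set T : ℝ := ∑' x : J, ((1 : ℝ) / 2) ^ (e x) with hT
  have hTpos : 0 < T := hs.tsum_pos (fun x => by positivity) (Classical.arbitrary J) (by positivity)
  refine ⟨fun x => ((1 : ℝ) / 2) ^ (e x) / T, fun x => by positivity, ?_⟩
  have := hs.hasSum.div_const T
  rwa [← hT, div_self hTpos.ne'] at this

section order

variable {J : Type v} (lt : J → J → Prop) (w : J → ℝ)

/-- starting time -/
def stA (x : J) : ℝ := ∑' y, {y | lt y x}.indicator w y

/-- final time -/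
def stB (x : J) : ℝ := stA lt w x + w x

variable {lt w}

theorem mass_mono (hw : ∀ x, 0 < w x) (hs : HasSum w 1) {s t : Set J} (h : s ⊆ t) :
    ∑' y, s.indicator w y ≤ ∑' y, t.indicator w y :=
  Summable.tsum_le_tsum (fun y => indicator_le_indicator_of_subset h (fun z => (hw z).le) y)
    (hs.summable.indicator s) (hs.summable.indicator t)

theorem mass_add (hs : HasSum w 1) {s : Set J} {x : J} (hx : x ∉ s) :
    ∑' y, (s ∪ {x}).indicator w y = ∑' y, s.indicator w y + w x := by
  have h1 : Disjoint s {x} := by simpa using hx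
  rw [indicator_union_of_disjoint h1]
  rw [Summable.tsum_add (hs.summable.indicator s) (hs.summable.indicator {x})]
  congr 1
  rw [tsum_eq_single x]
  · simp
  · intro y hy
    simp [hy]

theorem stA_nonneg (hw : ∀ x, 0 < w x) (x : J) : 0 ≤ stA lt w x :=
  tsum_nonneg fun y => indicator_nonneg (fun z _ => (hw z).le) y

theorem stA_lt_stB (hw : ∀ x, 0 < w x) (x : J) : stA lt w x < stB lt w x := by
  have := hw x
  unfold stB
  linarith

theorem stB_eq (hs : HasSum w 1) (hirr : ∀ x, ¬ lt x x) (x : J) :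
    stB lt w x = ∑' y, ({y | lt y x} ∪ {x}).indicator w y := by
  rw [mass_add hs (show x ∉ {y | lt y x} from hirr x)]
  rfl

theorem stB_le_one (hw : ∀ x, 0 < w x) (hs : HasSum w 1) (hirr : ∀ x, ¬ lt x x) (x : J) :
    stB lt w x ≤ 1 := by
  rw [stB_eq hs hirr, ← hs.tsum_eq]
  refine Summable.tsum_le_tsum (fun y => ?_) (hs.summable.indicator _) hs.summable
  exact indicator_le_self' (fun z _ => (hw z).le) y

theorem stB_le_stA (hw : ∀ x, 0 < w x) (hs : HasSum w 1) (hirr : ∀ x, ¬ lt x x)
    (htr : ∀ x y z, lt x y → lt y z → lt x z) {x y : J} (h : lt x y) :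
    stB lt w x ≤ stA lt w y := by
  rw [stB_eq hs hirr]
  apply mass_mono hw hs
  rintro z (hz | hz)
  · exact htr _ _ _ hz h
  · rw [mem_singleton_iff] at hz
    rw [hz]
    exact h

/-- the open intervals are dense in the unit interval -/
theorem dense_intervals [Countable J] (hw : ∀ x, 0 < w x) (hs : HasSum w 1)
    (hirr : ∀ x, ¬ lt x x) (htr : ∀ x y z, lt x y → lt y z → lt x z)
    (htot : ∀ x y, x ≠ y → lt x y ∨ lt y x) {u v : ℝ} (hu : 0 ≤ u) (huv : u < v) (hv : v ≤ 1) :
    ∃ t ∈ Ioo u v, ∃ x, t ∈ Ioo (stA lt w x) (stB lt w x) := by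
  by_contra hcon
  push Not at hcon
  have hdisj : Pairwise (Function.onFun Disjoint fun x => Ioo (stA lt w x) (stB lt w x)) := by
    intro x y hxy
    rw [Function.onFun, disjoint_left]
    intro t htx hty
    rcases htot x y hxy with h | h
    · have := stB_le_stA hw hs hirr htr h
      linarith [htx.2, hty.1]
    · have := stB_le_stA hw hs hirr htr h
      linarith [hty.2, htx.1]
  have hvol : volume (⋃ x, Ioo (stA lt w x) (stB lt w x)) = 1 := by
    rw [measure_iUnion hdisj fun x => measurableSet_Ioo]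
    have : ∀ x, volume (Ioo (stA lt w x) (stB lt w x)) = ENNReal.ofReal (w x) := by
      intro x
      rw [Real.volume_Ioo]
      congr 1
      unfold stB
      ring
    simp_rw [this]
    rw [← ENNReal.ofReal_tsum_of_nonneg (fun x => (hw x).le) hs.summable, hs.tsum_eq,
      ENNReal.ofReal_one]
  have hsub : (⋃ x, Ioo (stA lt w x) (stB lt w x)) ∪ Ioo u v ⊆ Icc 0 1 := by
    rintro t (ht | ht)
    · obtain ⟨x, hx⟩ := mem_iUnion.mp ht
      exact ⟨(stA_nonneg hw x).trans hx.1.le, hx.2.le.trans (stB_le_one hw hs hirr x)⟩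
    · exact ⟨hu.trans ht.1.le, ht.2.le.trans hv⟩
  have hd2 : Disjoint (⋃ x, Ioo (stA lt w x) (stB lt w x)) (Ioo u v) := by
    rw [disjoint_left]
    intro t ht ht'
    obtain ⟨x, hx⟩ := mem_iUnion.mp ht
    exact hcon t ht' x hx
  have h1 := measure_mono (μ := volume) hsub
  rw [measure_union hd2 measurableSet_Ioo, hvol, Real.volume_Ioo, Real.volume_Icc] at h1
  have h2 : ENNReal.ofReal (v - u) = 0 := by
    have h3 : (1 : ENNReal) + ENNReal.ofReal (v - u) ≤ 1 + 0 := by
      simpa using h1
    have h4 := (ENNReal.add_le_add_iff_left (ENNReal.one_ne_top)).mp h3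
    simpa using h4
  rw [ENNReal.ofReal_eq_zero] at h2
  linarith

end order

/-- a path, parametrised by the interval `[a, b]` and extended by constants -/
def stretch {X : Type u} [TopologicalSpace X] (F : C(I, X)) (a b : ℝ) (t : ℝ) : X :=
  F (projIcc 0 1 zero_le_one ((t - a) / (b - a)))

theorem stretch_left {X : Type u} [TopologicalSpace X] (F : C(I, X)) (a b : ℝ) :
    stretch F a b a = F 0 := by
  unfold stretch
  rw [sub_self, zero_div]
  congr 1
  exact projIcc_left zero_le_one

theorem stretch_right {X : Type u} [TopologicalSpace X] (F : C(I, X)) {a b : ℝ} (h : a < b) :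
    stretch F a b b = F 1 := by
  unfold stretch
  rw [div_self (sub_ne_zero.mpr h.ne')]
  congr 1
  exact projIcc_right zero_le_one

theorem stretch_mem {X : Type u} [TopologicalSpace X] (F : C(I, X)) (a b t : ℝ) :
    stretch F a b t ∈ range F := mem_range_self _

theorem stretch_cont {X : Type u} [TopologicalSpace X] (F : C(I, X)) (a b : ℝ) :
    Continuous (stretch F a b) := by
  unfold stretch
  exact F.continuous.comp (continuous_projIcc.comp ((continuous_id.sub continuous_const).div_const _))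

theorem stretch_uc {X : Type u} [MetricSpace X] (F : C(I, X)) (a b : ℝ) :
    UniformContinuous (stretch F a b) := by
  have h1 : UniformContinuous F := CompactSpace.uniformContinuous_of_continuous F.continuous
  have h2 : UniformContinuous (projIcc (0 : ℝ) 1 zero_le_one) :=
    (LipschitzWith.projIcc _).uniformContinuous
  have h3 : UniformContinuous (fun t : ℝ => (t - a) / (b - a)) := by
    have : (fun t : ℝ => (t - a) / (b - a)) = fun t => (b - a)⁻¹ • (t - a) := by
      ext t
      rw [smul_eq_mul, div_eq_inv_mul]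
    rw [this]
    exact (UniformContinuous.sub (uniformContinuous_id (α := ℝ))
      (uniformContinuous_const (b := a))).const_smul (b - a)⁻¹
  exact UniformContinuous.comp h1 (UniformContinuous.comp h2 h3)

/-- Glueing along a linear order. -/
theorem glue {X : Type u} [MetricSpace X] [CompactSpace X] {J : Type v} [Countable J] [Nonempty J]
    (lt : J → J → Prop) (hirr : ∀ x, ¬ lt x x) (htr : ∀ x y z, lt x y → lt y z → lt x z)
    (htot : ∀ x y, x ≠ y → lt x y ∨ lt y x) (F : J → C(I, X)) (p : X)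
    (hE : ∀ θ > 0, ∃ E : Set J, E.Finite ∧
      (∀ x, x ∉ E → ∀ s t, dist (F x s) (F x t) ≤ θ) ∧
      (∀ x y, lt x y → (∀ z ∈ E, ¬ (lt x z ∧ lt z y)) → dist (F x 1) (F y 0) ≤ θ) ∧
      (∀ x, (∀ z ∈ E, ¬ lt z x) → dist p (F x 0) ≤ θ) ∧
      (∀ x, (∀ z ∈ E, ¬ lt x z) → dist (F x 1) p ≤ θ)) :
    ∃ (h : C(I, X)) (a b : J → I), h 0 = p ∧ h 1 = p ∧ (∀ x, a x < b x) ∧
      (∀ x y, lt x y → b x ≤ a y) ∧
      (∀ x, ∀ t : I, t ∈ Icc (a x) (b x) → h t = stretch (F x) (a x) (b x) t) ∧
      Dense (⋃ x, Ioo (a x) (b x)) := by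
  classical
  obtain ⟨w, hw, hs⟩ := exists_weights J
  set A : J → ℝ := stA lt w with hA
  set B : J → ℝ := stB lt w with hB
  have hA0 : ∀ x, 0 ≤ A x := fun x => stA_nonneg hw x
  have hAB : ∀ x, A x < B x := fun x => stA_lt_stB hw x
  have hB1 : ∀ x, B x ≤ 1 := fun x => stB_le_one hw hs hirr x
  have hBA : ∀ {x y}, lt x y → B x ≤ A y := fun h => stB_le_stA hw hs hirr htr h
  have hBAw : ∀ x, B x = A x + w x := fun x => rfl
  have hden : ∀ u v : ℝ, 0 ≤ u → u < v → v ≤ 1 → ∃ t ∈ Ioo u v, ∃ x, t ∈ Ioo (A x) (B x) :=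
    fun u v hu huv hv => dense_intervals hw hs hirr htr htot hu huv hv
  have huniq : ∀ x y t, t ∈ Ioo (A x) (B x) → t ∈ Ioo (A y) (B y) → x = y := by
    intro x y t hx hy
    by_contra hne
    rcases htot x y hne with h | h
    · linarith [hBA h, hx.2, hy.1]
    · linarith [hBA h, hy.2, hx.1]
  -- modulus of continuity
  have modulus : ∀ θ > 0, ∃ E : Set J, ∃ δ > 0, (∀ z ∈ E, δ ≤ w z) ∧
      (∀ x s t, |s - t| < δ → dist (stretch (F x) (A x) (B x) s)
        (stretch (F x) (A x) (B x) t) ≤ θ) ∧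
      (∀ x y, lt x y → (∀ z ∈ E, ¬ (lt x z ∧ lt z y)) → dist (F x 1) (F y 0) ≤ θ) ∧
      (∀ x, (∀ z ∈ E, ¬ lt z x) → dist p (F x 0) ≤ θ) ∧
      (∀ x, (∀ z ∈ E, ¬ lt x z) → dist (F x 1) p ≤ θ) := by
    intro θ hθ
    obtain ⟨E, hEf, h1, h2, h3, h4⟩ := hE θ hθ
    have key : ∀ z ∈ E, ∀ᶠ δ in 𝓝[>] (0 : ℝ), δ ≤ w z ∧ ∀ s t, |s - t| < δ →
        dist (stretch (F z) (A z) (B z) s) (stretch (F z) (A z) (B z) t) ≤ θ := by
      intro z _
      obtain ⟨δ, hδ, hd⟩ := Metric.uniformContinuous_iff.mp (stretch_uc (F z) (A z) (B z)) θ hθ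
      have hm : 0 < min δ (w z) := lt_min hδ (hw z)
      filter_upwards [Ioc_mem_nhdsGT hm] with d hd'
      refine ⟨hd'.2.trans (min_le_right _ _), ?_⟩
      intro s t hst
      refine (hd ?_).le
      rw [Real.dist_eq]
      exact hst.trans_le (hd'.2.trans (min_le_left _ _))
    obtain ⟨δ, hδ1, hδ0⟩ := (((eventually_all_finite hEf).mpr key).and
      self_mem_nhdsWithin).exists
    refine ⟨E, δ, hδ0, fun z hz => (hδ1 z hz).1, ?_, h2, h3, h4⟩
    intro x s t hst
    by_cases hx : x ∈ E
    · exact (hδ1 x hx).2 s t hst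
    · exact h1 x hx _ _
  -- the dense set and the function on it
  set D : Set I := {t : I | ∃ x, (t : ℝ) ∈ Ioo (A x) (B x)} with hD
  have hDd : Dense D := by
    rw [Metric.dense_iff]
    intro t r hr
    rcases lt_or_ge (t : ℝ) 1 with ht | ht
    · obtain ⟨s, hs1, x, hx⟩ := hden t (min 1 (t + r)) t.2.1 (lt_min ht (by linarith))
        (min_le_left _ _)
      have hs0 : s ∈ Icc (0 : ℝ) 1 := ⟨t.2.1.trans hs1.1.le, hs1.2.le.trans (min_le_left _ _)⟩
      refine ⟨⟨s, hs0⟩, ?_, x, hx⟩
      rw [mem_ball, Subtype.dist_eq, Real.dist_eq, abs_lt]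
      have := hs1.2.trans_le (min_le_right _ _)
      constructor
      · simp only
        linarith [hs1.1]
      · simp only
        linarith
    · have ht1 : (t : ℝ) = 1 := le_antisymm t.2.2 ht
      obtain ⟨s, hs1, x, hx⟩ := hden (max 0 (1 - r)) 1 (le_max_left _ _)
        (max_lt one_pos (by linarith)) le_rfl
      have hs0 : s ∈ Icc (0 : ℝ) 1 := ⟨(le_max_left _ _).trans hs1.1.le, hs1.2.le⟩
      refine ⟨⟨s, hs0⟩, ?_, x, hx⟩
      rw [mem_ball, Subtype.dist_eq, Real.dist_eq, abs_lt, ht1]
      have := (le_max_right 0 (1 - r)).trans_lt hs1.1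
      constructor
      · simp only
        linarith
      · simp only
        linarith [hs1.2]
  choose! X' hX' using fun t : D => t.2
  let f : D → X := fun t => stretch (F (X' t)) (A (X' t)) (B (X' t)) (t : I)
  have hf : ∀ (t : D) x, ((t : I) : ℝ) ∈ Ioo (A x) (B x) → f t = stretch (F x) (A x) (B x) (t : I) := by
    intro t x hx
    have : X' t = x := huniq _ _ _ (hX' t) hx
    simp only [f, this]
  have est : ∀ θ > 0, ∃ δ > 0, ∀ s t : D, ((s : I) : ℝ) ≤ (t : I) → ((t : I) : ℝ) - (s : I) < δ →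
      dist (f s) (f t) ≤ 3 * θ := by
    intro θ hθ
    obtain ⟨E, δ, hδ, hEw, h1, h2, _, _⟩ := modulus θ hθ
    refine ⟨δ, hδ, ?_⟩
    intro s t hst hd
    obtain ⟨x, hx⟩ := s.2
    obtain ⟨y, hy⟩ := t.2
    rw [hf s x hx, hf t y hy]
    by_cases hxy : x = y
    · subst hxy
      have := h1 x (s : I) (t : I) (by rw [abs_lt]; constructor <;> linarith)
      linarith
    · have hlt : lt x y := by
        rcases htot x y hxy with h | h
        · exact h
        · exfalso
          linarith [hBA h, hx.1, hy.2]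
      have e1 : dist (F x 1) (F y 0) ≤ θ := by
        apply h2 x y hlt
        rintro z hz ⟨hxz, hzy⟩
        have := hEw z hz
        linarith [hBA hxz, hBA hzy, hBAw z, hx.2, hy.1]
      have e2 : dist (stretch (F x) (A x) (B x) (s : I)) (F x 1) ≤ θ := by
        rw [← stretch_right (F x) (hAB x)]
        apply h1
        rw [abs_lt]
        constructor <;> linarith [hBA hlt, hx.2, hy.1]
      have e3 : dist (F y 0) (stretch (F y) (A y) (B y) (t : I)) ≤ θ := by
        rw [← stretch_left (F y) (A y) (B y)]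
        apply h1
        rw [abs_lt]
        constructor <;> linarith [hBA hlt, hx.2, hy.1]
      calc dist (stretch (F x) (A x) (B x) (s : I)) (stretch (F y) (A y) (B y) (t : I))
          ≤ dist (stretch (F x) (A x) (B x) (s : I)) (F x 1) + dist (F x 1) (F y 0) +
            dist (F y 0) (stretch (F y) (A y) (B y) (t : I)) := dist_triangle4 _ _ _ _
        _ ≤ 3 * θ := by linarith
  have fuc : UniformContinuous f := by
    rw [Metric.uniformContinuous_iff]
    intro ε hε
    obtain ⟨δ, hδ, hd⟩ := est (ε / 4) (by positivity)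
    refine ⟨δ, hδ, ?_⟩
    intro s t hst
    rw [Subtype.dist_eq, Subtype.dist_eq, Real.dist_eq, abs_lt] at hst
    rcases le_total ((s : I) : ℝ) (t : I) with h | h
    · have := hd s t h (by linarith [hst.1])
      linarith
    · have := hd t s h (by linarith [hst.2])
      rw [dist_comm]
      linarith
  have hui : IsUniformInducing (Subtype.val : D → I) := isUniformEmbedding_subtype_val.isUniformInducing
  have hdr : DenseRange (Subtype.val : D → I) := by
    rw [DenseRange, Subtype.range_coe]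
    exact hDd
  set h : I → X := (hui.isDenseInducing hdr).extend f with hh
  have hcont : Continuous h := (uniformContinuous_uniformly_extend hui hdr fuc).continuous
  have hext : ∀ t : D, h t = f t := fun t => uniformly_extend_of_ind hui hdr fuc t
  let a : J → I := fun x => ⟨A x, hA0 x, ((hAB x).le.trans (hB1 x))⟩
  let b : J → I := fun x => ⟨B x, (hA0 x).trans (hAB x).le, hB1 x⟩
  have hDeq : (⋃ x, Ioo (a x) (b x)) = D := by
    ext t
    simp only [mem_iUnion, hD, mem_ofPred_eq]
    rfl
  refine ⟨⟨h, hcont⟩, a, b, ?_, ?_, fun x => hAB x, fun x y hxy => hBA hxy, ?_, ?_⟩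
  · -- value at zero
    by_contra hne
    have hpos : 0 < dist (h 0) p := dist_pos.mpr hne
    set θ := dist (h 0) p / 4 with hθ
    have hθ0 : 0 < θ := by positivity
    obtain ⟨E, δ, hδ, hEw, h1, _, h3, _⟩ := modulus θ hθ0
    obtain ⟨δ', hδ', hd'⟩ := Metric.continuous_iff.mp hcont 0 θ hθ0
    have hm : 0 < min 1 (min δ δ') := lt_min one_pos (lt_min hδ hδ')
    obtain ⟨t, ht, x, hx⟩ := hden 0 (min 1 (min δ δ')) le_rfl hm (min_le_left _ _)
    have htI : t ∈ Icc (0 : ℝ) 1 := ⟨ht.1.le, ht.2.le.trans (min_le_left _ _)⟩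
    have htδ : t < δ := ht.2.trans_le ((min_le_right _ _).trans (min_le_left _ _))
    have htδ' : t < δ' := ht.2.trans_le ((min_le_right _ _).trans (min_le_right _ _))
    have e1 : dist (h ⟨t, htI⟩) (h 0) < θ := by
      apply hd'
      rw [Subtype.dist_eq, Real.dist_eq]
      simp only [Icc.coe_zero, sub_zero]
      rw [abs_of_pos ht.1]
      exact htδ'
    have e2 : h ⟨t, htI⟩ = stretch (F x) (A x) (B x) t := by
      have := hext ⟨⟨t, htI⟩, x, hx⟩
      rw [hf _ x hx] at this
      exact this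
    have e3 : dist p (F x 0) ≤ θ := by
      apply h3
      intro z hz hzx
      have := hEw z hz
      linarith [hBA hzx, hBAw z, hx.1, hA0 z]
    have e4 : dist (F x 0) (stretch (F x) (A x) (B x) t) ≤ θ := by
      rw [← stretch_left (F x) (A x) (B x)]
      apply h1
      rw [abs_lt]
      constructor <;> linarith [hx.1, hA0 x]
    have e5 : dist (h 0) p ≤ dist (h 0) (h ⟨t, htI⟩) + dist (h ⟨t, htI⟩) (F x 0) +
      dist (F x 0) p := dist_triangle4 _ _ _ _
    rw [e2] at e1 e5
    have e6 := dist_comm (h 0) (stretch (F x) (A x) (B x) t)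
    have e7 := dist_comm (F x 0) p
    have e8 := dist_comm (stretch (F x) (A x) (B x) t) (F x 0)
    have : dist (h 0) p = 4 * θ := by rw [hθ]; ring
    linarith
  · -- value at one
    by_contra hne
    have hpos : 0 < dist (h 1) p := dist_pos.mpr hne
    set θ := dist (h 1) p / 4 with hθ
    have hθ0 : 0 < θ := by positivity
    obtain ⟨E, δ, hδ, hEw, h1, _, _, h4⟩ := modulus θ hθ0
    obtain ⟨δ', hδ', hd'⟩ := Metric.continuous_iff.mp hcont 1 θ hθ0
    have hm : 0 < min 1 (min δ δ') := lt_min one_pos (lt_min hδ hδ')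
    obtain ⟨t, ht, x, hx⟩ := hden (1 - min 1 (min δ δ')) 1 (by linarith [min_le_left 1 (min δ δ')])
      (by linarith) le_rfl
    have htI : t ∈ Icc (0 : ℝ) 1 :=
      ⟨by linarith [ht.1, min_le_left 1 (min δ δ')], ht.2.le⟩
    have htδ : 1 - t < δ := by
      linarith [ht.1, (min_le_right 1 (min δ δ')).trans (min_le_left δ δ')]
    have htδ' : 1 - t < δ' := by
      linarith [ht.1, (min_le_right 1 (min δ δ')).trans (min_le_right δ δ')]
    have e1 : dist (h ⟨t, htI⟩) (h 1) < θ := by
      apply hd'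
      rw [Subtype.dist_eq, Real.dist_eq, abs_sub_comm]
      simp only [Icc.coe_one]
      rw [abs_of_pos (by linarith [ht.2])]
      exact htδ'
    have e2 : h ⟨t, htI⟩ = stretch (F x) (A x) (B x) t := by
      have := hext ⟨⟨t, htI⟩, x, hx⟩
      rw [hf _ x hx] at this
      exact this
    have e3 : dist (F x 1) p ≤ θ := by
      apply h4
      intro z hz hzx
      have := hEw z hz
      linarith [hBA hzx, hBAw z, hx.2, hB1 z]
    have e4 : dist (stretch (F x) (A x) (B x) t) (F x 1) ≤ θ := by
      rw [← stretch_right (F x) (hAB x)]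
      apply h1
      rw [abs_lt]
      constructor <;> linarith [hx.2, hB1 x]
    have e5 : dist (h 1) p ≤ dist (h 1) (h ⟨t, htI⟩) + dist (h ⟨t, htI⟩) (F x 1) +
      dist (F x 1) p := dist_triangle4 _ _ _ _
    rw [e2] at e1 e5
    have e6 := dist_comm (h 1) (stretch (F x) (A x) (B x) t)
    have : dist (h 1) p = 4 * θ := by rw [hθ]; ring
    linarith
  · intro x
    have hcl : IsClosed {t : I | h t = stretch (F x) (A x) (B x) t} :=
      isClosed_eq hcont ((stretch_cont _ _ _).comp continuous_subtype_val)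
    have hIoo : Ioo (a x) (b x) ⊆ {t : I | h t = stretch (F x) (A x) (B x) t} := by
      intro t ht
      have hx' : (t : ℝ) ∈ Ioo (A x) (B x) := ht
      have := hext ⟨t, x, hx'⟩
      rw [hf ⟨t, x, hx'⟩ x hx'] at this
      exact this
    have := hcl.closure_subset_iff.mpr hIoo
    rw [closure_Ioo (ne_of_lt (show a x < b x from hAB x))] at this
    intro t ht
    exact this ht
  · rw [hDeq]
    exact hDd

end Pool.Agent.EU.H55
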