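import Pool.Agent.Helper55_EU.NetRL

/-! # Module STEPB of the squad MP_0dbebf_gt -/

open Set Metric Topology unitInterval Filter

noncomputable section

namespace Pool.Agent.EU.H55

universe u v

variable {X : Type u} [MetricSpace X] {ι : Type v} (𝓔 : EdgeSys X ι)

theorem rooted_mono {S : Set ι} {V V' : Set X} {r : ℝ} (h : 𝓔.Rooted S V r) (hV : V ⊆ V') :
    𝓔.Rooted S V' r := by
  intro x hx
  rcases h x hx with ⟨C, hCY, hC, hxC, ⟨v, hv, hvC⟩, hCs⟩ | ⟨_, hs⟩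
  · exact Or.inl ⟨C, hCY, hC, hxC, ⟨v, hV hv, hvC⟩, hCs⟩
  · by_cases hv : ∃ v ∈ V', v ∈ 𝓔.comp S x
    · exact Or.inl ⟨_, comp_sub 𝓔 S x, comp_pre 𝓔 S x, mem_comp 𝓔 (G_sub_Y 𝓔 S hx), hv, hs⟩
    · exact Or.inr ⟨fun v hv' hc => hv ⟨v, hv', hc⟩, hs⟩

/-- the ends of edges are ground points -/
theorem end_mem_G (i : ι) (t : I) (ht : t = 0 ∨ t = 1) : 𝓔.φ i t ∈ 𝓔.G := by
  intro hc
  simp only [mem_iUnion] at hc
  obtain ⟨j, hj⟩ := hc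
  have htI : t ∉ Ioo (0 : I) 1 := by
    rcases ht with rfl | rfl <;> simp
  by_cases hij : i = j
  · subst hij
    obtain ⟨s, hs, hst⟩ := hj
    have : s = t := 𝓔.inj i hst
    subst this
    exact htI hs
  · have hopen : IsOpen ((𝓔.φ i) ⁻¹' (𝓔.o j)) := (𝓔.opn j).preimage (𝓔.φ i).continuous
    have hcl : t ∈ closure (Ioo (0 : I) 1) := by
      rw [closure_Ioo (by simp : (0 : I) ≠ 1)]
      exact ⟨t.2.1, t.2.2⟩
    obtain ⟨s, hs1, hs2⟩ := mem_closure_iff.mp hcl _ hopen hj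
    exact disjoint_left.mp (𝓔.disj i j hij) ⟨s, hs2, rfl⟩ hs1

theorem Y_inter_R_sub_G (S : Set ι) : 𝓔.Y S ∩ 𝓔.R S ⊆ 𝓔.G := by
  rintro x ⟨hxY, hxR⟩ hc
  simp only [mem_iUnion] at hc
  obtain ⟨j, hj⟩ := hc
  obtain ⟨z, hz1, hz2⟩ := mem_closure_iff.mp hxR _ (𝓔.opn j) hj
  simp only [mem_iUnion, exists_prop] at hz2
  obtain ⟨i, hi, hzi⟩ := hz2
  by_cases hij : i = j
  · subst hij
    apply hxY
    simp only [mem_iUnion, exists_prop]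
    exact ⟨i, hi, hj⟩
  · exact disjoint_left.mp (𝓔.disj i j hij) hzi hz1

/-- cut an arc at the first point of a finite set of ground points -/
theorem cut_first (hSub : 𝓔.SubArcStmt) {T : Set X} (hT : T.Finite) (hTG : T ⊆ 𝓔.G)
    (a : 𝓔.Arc) (h0 : a.f 0 ∉ T) (h1 : a.f 1 ∈ T) :
    ∃ b : 𝓔.Arc, b.f 0 = a.f 0 ∧ b.f 1 ∈ T ∧ (∀ t, b.f t ∈ T → t = 1) ∧
      range b.f ⊆ range a.f := by
  have hcl : IsClosed (a.f ⁻¹' T) := hT.isClosed.preimage a.f.continuous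
  have hne : (a.f ⁻¹' T).Nonempty := ⟨1, h1⟩
  obtain ⟨t0, ht0, hmin⟩ := hcl.isCompact.exists_isLeast hne
  have hpos : 0 < t0 := by
    rcases eq_or_lt_of_le (unitInterval.nonneg' : 0 ≤ t0) with h | h
    · rw [← h] at ht0
      exact absurd ht0 h0
    · exact h
  obtain ⟨b, hb0, hb1, hbr⟩ := hSub a 0 t0 hpos a.h0 (hTG ht0)
  refine ⟨b, hb0, by rw [hb1]; exact ht0, ?_, ?_⟩
  · intro t ht
    have : b.f t ∈ a.f '' Icc 0 t0 := by rw [← hbr]; exact mem_range_self t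
    obtain ⟨s, hs, hst⟩ := this
    rw [← hst] at ht
    have hs0 : s = t0 := le_antisymm hs.2 (hmin ht)
    apply b.inj
    rw [hb1, ← hst, hs0]
  · rw [hbr]
    exact image_subset_range _ _

theorem exists_list {α β : Type*} {D : Set α} (hD : D.Finite) {P : α → β → Prop}
    (h : ∀ w ∈ D, ∃ a, P w a) :
    ∃ l : List β, (∀ w ∈ D, ∃ a ∈ l, P w a) ∧ ∀ a ∈ l, ∃ w ∈ D, P w a := by
  choose f hf using h
  refine ⟨hD.toFinset.attach.toList.map (fun w => f w.1 (hD.mem_toFinset.mp w.2)), ?_, ?_⟩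
  · intro w hw
    refine ⟨f w hw, ?_, hf w hw⟩
    simp only [List.mem_map, Finset.mem_toList, Finset.mem_attach, true_and, Subtype.exists]
    exact ⟨w, by simpa using hw, rfl⟩
  · intro a ha
    simp only [List.mem_map, Finset.mem_toList, Finset.mem_attach, true_and, Subtype.exists] at ha
    obtain ⟨w, hw, rfl⟩ := ha
    exact ⟨w, by simpa using hw, hf w _⟩

/-- STEPB -/
theorem stepB [ConnectedSpace X] (hNet : 𝓔.NetStmt) (hRL : 𝓔.RLStmt) (hArc : 𝓔.ArcStmt)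
    (hFG1 : 𝓔.FG1Stmt) (hFG2 : 𝓔.FG2Stmt) (hY3 : 𝓔.Y3Stmt) (hNull : 𝓔.NullStmt)
    (hSub : 𝓔.SubArcStmt) (hA : 𝓔.ThinArcStmt) (hU : 𝓔.ThinUnionStmt) : 𝓔.StepBStmt := by
  intro S V r W θ hS hVf hVn hVG hr hWf hWG hθ hroot
  obtain ⟨W0, hW0f, hW0G, hW0r⟩ := hNet S hS (θ / 2) (half_pos hθ)
  -- the new points
  set BE : Set ι := {i | ¬ Small θ (𝓔.c i)} with hBE
  have hBEf : BE.Finite := hNull θ hθ
  set W' : Set X := W ∪ W0 ∪ ((fun i => 𝓔.φ i 0) '' BE ∪ (fun i => 𝓔.φ i 1) '' BE) with hW'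
  have hW'f : W'.Finite := (hWf.union hW0f).union ((hBEf.image _).union (hBEf.image _))
  have hW'G : W' ⊆ 𝓔.G := by
    rintro x ((hx | hx) | (⟨i, _, rfl⟩ | ⟨i, _, rfl⟩))
    · exact hWG hx
    · exact hW0G hx
    · exact end_mem_G 𝓔 i 0 (Or.inl rfl)
    · exact end_mem_G 𝓔 i 1 (Or.inr rfl)
  -- components not meeting V
  set Q : Set (Set X) := {Z | ∃ w ∈ W', Z = 𝓔.comp S w ∧ (∀ v ∈ V, v ∉ 𝓔.comp S w) ∧
    Small r (𝓔.comp S w)} with hQ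
  have hQf : Q.Finite := by
    refine (hW'f.image (fun w => 𝓔.comp S w)).subset ?_
    rintro Z ⟨w, hw, rfl, _⟩
    exact ⟨w, hw, rfl⟩
  have hQn : ∀ Z ∈ Q, (Z ∩ 𝓔.R S).Nonempty := by
    rintro Z ⟨w, hw, rfl, hv, _⟩
    have hSn : S.Nonempty := by
      by_contra hSe
      rw [not_nonempty_iff_eq_empty] at hSe
      obtain ⟨v, hvV⟩ := hVn
      apply hv v hvV
      have hYu : 𝓔.Y S = univ := by
        rw [hSe]
        simp [EdgeSys.Y]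
      unfold EdgeSys.comp
      rw [hYu, connectedComponentIn_univ, PreconnectedSpace.connectedComponent_eq_univ]
      trivial
    exact hY3 S hSn w (G_sub_Y 𝓔 S (hW'G hw))
  choose! pt hptZ using hQn
  set P : Set X := pt '' Q with hP
  have hPf : P.Finite := hQf.image _
  have hZeq : ∀ Z ∈ Q, ∀ x ∈ Z, 𝓔.comp S x = Z := by
    rintro Z ⟨w, _, rfl, _⟩ x hx
    exact comp_eq 𝓔 hx
  have hZY : ∀ Z ∈ Q, Z ⊆ 𝓔.Y S := by
    rintro Z ⟨w, _, rfl, _⟩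
    exact comp_sub 𝓔 S w
  have hZV : ∀ Z ∈ Q, ∀ v ∈ V, v ∉ Z := by
    rintro Z ⟨w, _, rfl, hv, _⟩
    exact hv
  have hPG : P ⊆ 𝓔.G := by
    rintro _ ⟨Z, hZ, rfl⟩
    exact Y_inter_R_sub_G 𝓔 S ⟨hZY Z hZ (hptZ Z hZ).1, (hptZ Z hZ).2⟩
  have hPprop : ∀ p ∈ P, p ∈ 𝓔.R S ∧ ∀ v ∈ V ∪ P, v ∈ 𝓔.comp S p → v = p := by
    rintro _ ⟨Z, hZ, rfl⟩
    refine ⟨(hptZ Z hZ).2, ?_⟩
    rw [hZeq Z hZ _ (hptZ Z hZ).1]
    rintro v (hv | ⟨Z', hZ', rfl⟩) hvZ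
    · exact absurd hvZ (hZV Z hZ v hv)
    · have h1 := hZeq Z hZ _ hvZ
      have h2 := hZeq Z' hZ' _ (hptZ Z' hZ').1
      have : Z' = Z := by rw [← h2, h1]
      rw [this]
  have hPV : Disjoint P V := by
    rw [disjoint_left]
    rintro _ ⟨Z, hZ, rfl⟩ hv
    exact hZV Z hZ _ hv (hptZ Z hZ).1
  set T : Set X := V ∪ P with hT
  have hTf : T.Finite := hVf.union hPf
  have hTG : T ⊆ 𝓔.G := union_subset hVG hPG
  -- arcs
  have harcs : ∀ w ∈ W' \ T, ∃ b : 𝓔.Arc, b.f 0 = w ∧ b.f 1 ∈ T ∧ (∀ t, b.f t ∈ T → t = 1) ∧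
      range b.f ⊆ 𝓔.Y S ∧ Small (3 * r) (range b.f) := by
    rintro w ⟨hw, hwT⟩
    have hwG := hW'G hw
    obtain ⟨C, hCY, hC, hwC, t, htT, htC, hCs⟩ : ∃ C ⊆ 𝓔.Y S, IsPreconnected C ∧ w ∈ C ∧
        ∃ t ∈ T, t ∈ C ∧ Small r C := by
      rcases hroot w hwG with ⟨C, hCY, hC, hwC, ⟨v, hv, hvC⟩, hCs⟩ | ⟨hv, hs⟩
      · exact ⟨C, hCY, hC, hwC, v, Or.inl hv, hvC, hCs⟩
      · have hZ : 𝓔.comp S w ∈ Q := ⟨w, hw, rfl, hv, hs⟩
        exact ⟨𝓔.comp S w, comp_sub 𝓔 S w, comp_pre 𝓔 S w, mem_comp 𝓔 (G_sub_Y 𝓔 S hwG),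
          pt (𝓔.comp S w), Or.inr ⟨_, hZ, rfl⟩, (hptZ _ hZ).1, hs⟩
    have hwt : w ≠ t := fun h => hwT (h ▸ htT)
    obtain ⟨a, ha0, ha1, har⟩ := hArc S hS C hCY hC w hwC t htC hwG (hTG htT) hwt (r / 4)
      (by positivity)
    obtain ⟨b, hb0, hb1, hbT, hbr⟩ := cut_first 𝓔 hSub hTf hTG a (by rw [ha0]; exact hwT)
      (by rw [ha1]; exact htT)
    refine ⟨b, by rw [hb0, ha0], hb1, hbT, fun z hz => (har (hbr hz)).1, ?_⟩
    intro y hy z hz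
    obtain ⟨y', hy', hyd⟩ := mem_thickening_iff.mp (har (hbr hy)).2
    obtain ⟨z', hz', hzd⟩ := mem_thickening_iff.mp (har (hbr hz)).2
    have h1 := hCs y' hy' z' hz'
    have h2 := dist_triangle4 y y' z' z
    rw [dist_comm z' z] at h2
    linarith
  have hDf : (W' \ T).Finite := hW'f.subset sdiff_subset
  obtain ⟨l0, hl01, hl02⟩ := exists_list hDf harcs
  obtain ⟨l', W1, hW1f, hW1T, hW1G, hW10, hl'd, hl'r, hl'e, hl'T, hl'p⟩ :=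
    hFG1 T l0 (3 * r) hTf (by positivity) (by
      intro a ha
      obtain ⟨w, hw, h0, h1, h2, h3, h4⟩ := hl02 a ha
      exact ⟨h4, h1, h2⟩)
  have hl'Y : 𝓔.RL l' ⊆ 𝓔.Y S := by
    rintro x ⟨b, hb, hx⟩
    obtain ⟨a, ha, hba⟩ := hl'r b hb
    obtain ⟨w, hw, h0, h1, h2, h3, h4⟩ := hl02 a ha
    exact h3 (hba hx)
  have hl's : ∀ b ∈ l', Small (3 * r) (range b.f) := by
    intro b hb
    obtain ⟨a, ha, hba⟩ := hl'r b hb
    obtain ⟨w, hw, h0, h1, h2, h3, h4⟩ := hl02 a ha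
    exact small_subset hba h4
  obtain ⟨B, hBf, hBG, hBr⟩ := hRL S W0 (θ / 2) l' hS hW0f (half_pos hθ) hW0r hl'Y (θ / 2)
    (half_pos hθ)
  rw [add_halves] at hBr
  obtain ⟨l, W2, hW2f, hW12, hBW2, hW2T, hW2G, hld, hlr, hlEL, hle, hlp⟩ :=
    hFG2 T l' W1 (B \ T) (3 * r) (by positivity) hW1f (hBf.subset sdiff_subset) hW1T hW1G hl'd
      hl's hl'e hl'T hl'p (fun x hx => hBG hx.1) disjoint_sdiff_left
  have hW'U : W' ⊆ T ∪ W2 := by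
    intro w hw
    by_cases hwT : w ∈ T
    · exact Or.inl hwT
    · refine Or.inr (hW12 ?_)
      obtain ⟨a, ha, h0, _⟩ := hl01 w ⟨hw, hwT⟩
      have := hW10 a ha
      rwa [h0] at this
  have hTU : T ∪ W2 ⊆ V ∪ (W2 ∪ P) := by
    rintro x ((hx | hx) | hx)
    · exact Or.inl hx
    · exact Or.inr (Or.inr hx)
    · exact Or.inr (Or.inl hx)
  have hW2P : ∀ x ∈ W2, x ∈ (W2 ∪ P) \ P := fun x hx =>
    ⟨Or.inl hx, fun hxP => disjoint_left.mp hW2T hx (Or.inr hxP)⟩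
  refine ⟨l, W2 ∪ P, P, hW2f.union hPf, union_subset hW2G hPG, ?_, subset_union_right, ?_,
    hPprop, hld, ?_, ?_, ?_, ?_, ?_, ?_, ?_⟩
  · rw [disjoint_union_left]
    exact ⟨hW2T.mono_right subset_union_left, hPV⟩
  · intro w hw
    exact hTU (hW'U (Or.inl (Or.inl hw)))
  · rintro x ⟨b, hb, hx⟩
    obtain ⟨a, ha, hba⟩ := hlr b hb
    exact hl'Y ⟨a, ha, hba hx⟩
  · intro b hb
    obtain ⟨a, ha, hba⟩ := hlr b hb
    exact small_subset hba (hl's a ha)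
  · intro b hb
    obtain ⟨h0, h1, h2⟩ := hle b hb
    refine ⟨hTU (h0.symm), hTU (h1.symm), ?_⟩
    exact h2.imp (hW2P _) (hW2P _)
  · rintro u ⟨hu, huP⟩
    rcases hu with hu | hu
    · have := hlp u hu
      rw [show (4 : ℝ) * (3 * r) = 12 * r by ring] at this
      exact this
    · exact absurd hu huP
  · exact hU _ _ hS (thin_EL 𝓔 hA hU l)
  · rw [hlEL]
    refine rooted_mono 𝓔 hBr ?_
    rintro x (hx | hx)
    · exact hTU (hW'U (Or.inl (Or.inr hx)))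
    · by_cases hxT : x ∈ T
      · exact hTU (Or.inl hxT)
      · exact hTU (Or.inr (hBW2 ⟨hx, hxT⟩))
  · intro i hi hs
    exact ⟨hTU (hW'U (Or.inr (Or.inl ⟨i, hs, rfl⟩))), hTU (hW'U (Or.inr (Or.inr ⟨i, hs, rfl⟩)))⟩

end Pool.Agent.EU.H55
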