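import Pool.Agent.Helper17_EU.StmtsF
import Pool.Agent.Helper55_EU.Glue
import Pool.Agent.Helper55_EU.StepB

/-! # Module LIMIT of the squad MP_0dbebf_gt -/

open Set Metric Topology unitInterval Filter

noncomputable section

namespace Pool.Agent.EU.H55

universe u v

section lists

variable {α : Type*} [DecidableEq α]

theorem idx_left {l1 l2 : List α} {x z : α} (hn : (l1 ++ x :: l2).Nodup) (hz : z ∈ l1) :
    (l1 ++ x :: l2).idxOf z < (l1 ++ x :: l2).idxOf x := by
  have hx : x ∉ l1 := by
    intro h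
    exact (List.nodup_append.mp hn).2.2 x h x (by simp) rfl
  rw [List.idxOf_append_of_mem hz, List.idxOf_append_of_notMem hx, List.idxOf_cons_self, add_zero]
  exact List.idxOf_lt_length_of_mem hz

theorem idx_right {l1 l2 : List α} {x z : α} (hn : (l1 ++ x :: l2).Nodup) (hz : z ∈ l2) :
    (l1 ++ x :: l2).idxOf x < (l1 ++ x :: l2).idxOf z := by
  have hx : x ∉ l1 := by
    intro h
    exact (List.nodup_append.mp hn).2.2 x h x (by simp) rfl
  have hz1 : z ∉ l1 := by
    intro h
    exact (List.nodup_append.mp hn).2.2 z h z (by simp [hz]) rfl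
  have hzx : x ≠ z := by
    intro h
    have := (List.nodup_append.mp hn).2.1
    rw [List.nodup_cons] at this
    exact this.1 (h ▸ hz)
  rw [List.idxOf_append_of_notMem hx, List.idxOf_append_of_notMem hz1, List.idxOf_cons_self,
    List.idxOf_cons_ne _ hzx]
  omega

end lists

/-- position of an element in a list -/
def pos {α : Type*} (l : List α) (x : α) : ℕ :=
  @List.idxOf α (@instBEqOfDecidableEq α (Classical.decEq α)) x l

theorem pos_left {α : Type*} {l1 l2 : List α} {x z : α} (hn : (l1 ++ x :: l2).Nodup)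
    (hz : z ∈ l1) : pos (l1 ++ x :: l2) z < pos (l1 ++ x :: l2) x :=
  @idx_left α (Classical.decEq α) _ _ _ _ hn hz

theorem pos_right {α : Type*} {l1 l2 : List α} {x z : α} (hn : (l1 ++ x :: l2).Nodup)
    (hz : z ∈ l2) : pos (l1 ++ x :: l2) x < pos (l1 ++ x :: l2) z :=
  @idx_right α (Classical.decEq α) _ _ _ _ hn hz

theorem pos_inj {α : Type*} {l : List α} {x y : α} (hx : x ∈ l) (h : pos l x = pos l y) :
    x = y := by
  classical
  unfold pos at h
  exact (List.idxOf_inj hx).mp h

section items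

variable {X : Type u} {ι : Type v}

theorem items_append (w1 w2 : List (Step X ι)) : items (w1 ++ w2) = items w1 ++ items w2 := by
  unfold items
  exact List.filterMap_append

theorem items_cons {s : Step X ι} {x : ι ⊕ ℕ} (h : s.item = some x) (w : List (Step X ι)) :
    items (s :: w) = x :: items w := by
  unfold items
  rw [List.filterMap_cons, h]

theorem mem_items {w : List (Step X ι)} {x : ι ⊕ ℕ} : x ∈ items w ↔ ∃ s ∈ w, s.item = some x := by
  unfold items
  exact List.mem_filterMap

/-- split off the longest final part avoiding `E` -/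
theorem split_last (E : Set (ι ⊕ ℕ)) (w : List (Step X ι)) :
    ∃ w1 w2, w = w1 ++ w2 ∧ (∀ x ∈ items w2, x ∉ E) ∧
      (w1 = [] ∨ ∃ w0 s0, w1 = w0 ++ [s0] ∧ ∃ x, Step.item s0 = some x) := by
  induction w using List.reverseRecOn with
  | nil => exact ⟨[], [], rfl, by simp [items], Or.inl rfl⟩
  | append_singleton w s ih =>
    by_cases h : ∃ x ∈ E, s.item = some x
    · obtain ⟨x, _, hx⟩ := h
      exact ⟨w ++ [s], [], by simp, by simp [items], Or.inr ⟨w, s, rfl, x, hx⟩⟩
    · obtain ⟨w1, w2, h1, h2, h3⟩ := ih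
      refine ⟨w1, w2 ++ [s], by rw [h1, List.append_assoc], ?_, h3⟩
      intro x hx hxE
      rw [items_append, List.mem_append] at hx
      rcases hx with hx | hx
      · exact h2 x hx hxE
      · obtain ⟨s', hs', hx'⟩ := mem_items.mp hx
        rw [List.mem_singleton] at hs'
        subst hs'
        exact h ⟨x, hxE, hx'⟩

end items

variable {X : Type u} [MetricSpace X] {ι : Type v} (𝓔 : EdgeSys X ι)

theorem isW_append {x y : X} {w1 w2 : List (Step X ι)} (h : 𝓔.IsW x (w1 ++ w2) y) :
    ∃ z, 𝓔.IsW x w1 z ∧ 𝓔.IsW z w2 y := by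
  induction w1 generalizing x with
  | nil => exact ⟨x, EdgeSys.IsW.nil x, h⟩
  | cons s w1 ih =>
    rw [List.cons_append] at h
    cases h with
    | cons _ _ _ h' =>
      obtain ⟨z, hz1, hz2⟩ := ih h'
      exact ⟨z, EdgeSys.IsW.cons s w1 z hz1, hz2⟩

theorem isW_cons {x y : X} {s : Step X ι} {w : List (Step X ι)} (h : 𝓔.IsW x (s :: w) y) :
    x = 𝓔.src s ∧ 𝓔.IsW (𝓔.tgt s) w y := by
  cases h with
  | cons _ _ _ h' => exact ⟨rfl, h'⟩

theorem isW_nil {x y : X} (h : 𝓔.IsW x [] y) : x = y := by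
  cases h
  rfl

theorem isW_snoc {x y : X} {s : Step X ι} {w : List (Step X ι)} (h : 𝓔.IsW x (w ++ [s]) y) :
    y = 𝓔.tgt s := by
  obtain ⟨z, _, hz⟩ := isW_append 𝓔 h
  obtain ⟨_, h2⟩ := isW_cons 𝓔 hz
  exact (isW_nil 𝓔 h2).symm

theorem src_mem (s : Step X ι) : 𝓔.src s ∈ 𝓔.supp s := by
  cases s with
  | edge i b => cases b <;> simp [EdgeSys.src, EdgeSys.supp, EdgeSys.c]
  | jump x y => simp [EdgeSys.src, EdgeSys.supp]
  | mark k x => simp [EdgeSys.src, EdgeSys.supp]

theorem tgt_mem (s : Step X ι) : 𝓔.tgt s ∈ 𝓔.supp s := by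
  cases s with
  | edge i b => cases b <;> simp [EdgeSys.tgt, EdgeSys.supp, EdgeSys.c]
  | jump x y => simp [EdgeSys.tgt, EdgeSys.supp]
  | mark k x => simp [EdgeSys.tgt, EdgeSys.supp]

theorem start_mem {x y : X} {w : List (Step X ι)} (h : 𝓔.IsW x w y) (hw : w ≠ []) :
    x ∈ 𝓔.supW w := by
  cases h with
  | nil => exact absurd rfl hw
  | cons s w _ _ => exact ⟨s, by simp, src_mem 𝓔 s⟩

theorem end_mem {x y : X} {w : List (Step X ι)} (h : 𝓔.IsW x w y) (hw : w ≠ []) :
    y ∈ 𝓔.supW w := by
  induction w using List.reverseRecOn with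
  | nil => exact absurd rfl hw
  | append_singleton w s _ =>
    rw [isW_snoc 𝓔 h]
    exact ⟨s, by simp, tgt_mem 𝓔 s⟩

theorem dist_ends {x y : X} {w : List (Step X ι)} (h : 𝓔.IsW x w y) {θ : ℝ} (hθ : 0 ≤ θ)
    (hs : Small θ (𝓔.supW w)) : dist x y ≤ θ := by
  by_cases hw : w = []
  · subst hw
    rw [isW_nil 𝓔 h, dist_self]
    exact hθ
  · exact hs _ (start_mem 𝓔 h hw) _ (end_mem 𝓔 h hw)

/-- closed edges do not meet other open edges -/
theorem c_disj_o {i j : ι} (h : j ≠ i) {x : X} (hx : x ∈ 𝓔.c j) : x ∉ 𝓔.o i := by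
  obtain ⟨s, rfl⟩ := hx
  intro hi
  by_cases hs : s ∈ Ioo (0 : I) 1
  · exact disjoint_left.mp (𝓔.disj j i h) ⟨s, hs, rfl⟩ hi
  · have hs' : s = 0 ∨ s = 1 := by
      rw [mem_Ioo, not_and_or, not_lt, not_lt] at hs
      rcases hs with hs | hs
      · exact Or.inl (le_antisymm hs unitInterval.nonneg')
      · exact Or.inr (le_antisymm unitInterval.le_one' hs)
    exact end_mem_G 𝓔 j s hs' (mem_iUnion.mpr ⟨i, hi⟩)

include 𝓔 in
theorem countable_index [CompactSpace X] : Countable ι := by
  have h1 : Pairwise (Function.onFun Disjoint 𝓔.o) := fun i j hij => 𝓔.disj i j hij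
  refine h1.countable_of_isOpen_disjoint (fun i => 𝓔.opn i) (fun i => ?_)
  have : (Ioo (0 : I) 1).Nonempty := nonempty_Ioo.mpr (by simp)
  exact this.image _

theorem stretch_val {Y : Type u} [TopologicalSpace Y] (F : C(I, Y)) {a b : ℝ} (h : a < b) {t : ℝ}
    (ht : t ∈ Icc a b) : ∃ s : I, (s : ℝ) = (t - a) / (b - a) ∧ stretch F a b t = F s := by
  have h0 : 0 < b - a := sub_pos.mpr h
  have hm : (t - a) / (b - a) ∈ Icc (0 : ℝ) 1 := by
    constructor
    · exact div_nonneg (by linarith [ht.1]) h0.le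
    · rw [div_le_one h0]
      linarith [ht.2]
  refine ⟨⟨_, hm⟩, rfl, ?_⟩
  unfold stretch
  rw [projIcc_of_mem zero_le_one hm]

theorem stretch_surj {Y : Type u} [TopologicalSpace Y] (F : C(I, Y)) {a b : ℝ} (h : a < b)
    (s : I) : a + s * (b - a) ∈ Icc a b ∧ stretch F a b (a + s * (b - a)) = F s := by
  have h0 : 0 < b - a := sub_pos.mpr h
  refine ⟨⟨by nlinarith [s.2.1], by nlinarith [s.2.2]⟩, ?_⟩
  unfold stretch
  congr 1
  rw [add_sub_cancel_left, mul_div_assoc, div_self h0.ne', mul_one, projIcc_val]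

/-- LIMIT -/
theorem limit [CompactSpace X] [Nontrivial X] : 𝓔.LimitStmt := by
  rintro M ⟨p, g, η, MK, q, -, hW, -, hgood, hnd, hedge, hmk, hmk', hsm, hcov⟩
  classical
  have hcount : Countable ι := countable_index 𝓔
  set U : Ultrafilter ℕ := hyperfilter ℕ with hUdef
  have hU : (U : Filter ℕ) ≤ atTop := Nat.hyperfilter_le_atTop
  let J := {x : ι ⊕ ℕ // ∀ k, x = Sum.inr k → k ∈ MK}
  have hitemsJ : ∀ m z, z ∈ items (g m) → ∀ k, z = Sum.inr k → k ∈ MK := by
    intro m z hz k hzk
    subst hzk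
    obtain ⟨s, hs, hsi⟩ := mem_items.mp hz
    cases s with
    | edge i b => simp [Step.item] at hsi
    | jump x y => simp [Step.item] at hsi
    | mark k' x =>
      simp only [Step.item, Option.some.injEq, Sum.inr.injEq] at hsi
      subst hsi
      exact (hmk' m k' x hs).1
  have hqG : ∀ k ∈ MK, q k ∈ 𝓔.G := by
    intro k hk
    obtain ⟨m, hm⟩ := ((hmk k hk).2).exists
    exact hgood m _ hm
  -- order
  let idx : ℕ → ι ⊕ ℕ → ℕ := fun m x => pos (items (g m)) x
  let lt : J → J → Prop := fun x y => ∀ᶠ m in (U : Filter ℕ), idx m x.1 < idx m y.1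
  -- directions and paths
  let dir : ι → Prop := fun i => ∀ᶠ m in (U : Filter ℕ), Step.edge i true ∈ g m
  let rv : ι → C(I, X) := fun i => (𝓔.φ i).comp ⟨σ, unitInterval.continuous_symm⟩
  let F : ι ⊕ ℕ → C(I, X) := Sum.elim (fun i => if dir i then 𝓔.φ i else rv i)
    (fun k => ContinuousMap.const I (q k))
  let st : ι ⊕ ℕ → Step X ι := Sum.elim (fun i => .edge i (decide (dir i)))
    (fun k => .mark k (q k))
  have hst : ∀ x : J, ∀ᶠ m in (U : Filter ℕ), st x.1 ∈ g m := by
    rintro ⟨x | k, hx⟩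
    · have h1 : ∀ᶠ m in (U : Filter ℕ), Sum.inl x ∈ items (g m) := (hedge x).filter_mono hU
      by_cases hd : dir x
      · filter_upwards [hd] with m hm
        simpa [st, hd] using hm
      · have hd' : ∀ᶠ m in (U : Filter ℕ), Step.edge x true ∉ g m :=
          Ultrafilter.eventually_not.mpr hd
        filter_upwards [h1, hd'] with m hm hm'
        obtain ⟨s, hs, hsi⟩ := mem_items.mp hm
        cases s with
        | edge i b =>
          simp only [Step.item, Option.some.injEq, Sum.inl.injEq] at hsi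
          subst hsi
          cases b with
          | true => exact absurd hs hm'
          | false => simpa [st, hd] using hs
        | jump x y => simp [Step.item] at hsi
        | mark k' x => simp [Step.item] at hsi
    · have h1 := ((hmk k (hx k rfl)).2).filter_mono hU
      filter_upwards [h1] with m hm
      exact hm
  have hitem : ∀ x, (st x).item = some x := by
    rintro (i | k) <;> rfl
  have hsrc : ∀ x, 𝓔.src (st x) = F x 0 := by
    rintro (i | k)
    · by_cases hd : dir i <;> simp [st, F, EdgeSys.src, hd, rv]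
    · rfl
  have htgt : ∀ x, 𝓔.tgt (st x) = F x 1 := by
    rintro (i | k)
    · by_cases hd : dir i <;> simp [st, F, EdgeSys.tgt, hd, rv]
    · rfl
  have hrF : ∀ i, range (F (Sum.inl i)) = 𝓔.c i := by
    intro i
    by_cases hd : dir i
    · simp [F, hd, EdgeSys.c]
    · ext z
      simp only [F, hd, if_false, Sum.elim_inl, rv, EdgeSys.c, mem_range]
      constructor
      · rintro ⟨s, rfl⟩
        exact ⟨σ s, rfl⟩
      · rintro ⟨s, rfl⟩
        exact ⟨σ s, by simp⟩
  have hsupp : ∀ x, 𝓔.supp (st x) = range (F x) := by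
    rintro (i | k)
    · rw [hrF]
      rfl
    · ext z
      simp [st, F, EdgeSys.supp, eq_comm]
  have hFinj : ∀ i, Function.Injective (F (Sum.inl i)) := by
    intro i
    by_cases hd : dir i
    · simpa [F, hd] using 𝓔.inj i
    · intro s t hst'
      simp only [F, hd, if_false, Sum.elim_inl, rv, ContinuousMap.comp_apply] at hst'
      exact unitInterval.symm_bijective.injective (𝓔.inj i hst')
  have hFo : ∀ i, ∀ s ∈ Ioo (0 : I) 1, F (Sum.inl i) s ∈ 𝓔.o i := by
    intro i s hs
    by_cases hd : dir i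
    · simp only [F, hd, if_true, Sum.elim_inl]
      exact ⟨s, hs, rfl⟩
    · simp only [F, hd, if_false, Sum.elim_inl, rv, ContinuousMap.comp_apply]
      refine ⟨σ s, ⟨?_, ?_⟩, rfl⟩
      · have h1 : (s : ℝ) < 1 := hs.2
        rw [← Subtype.coe_lt_coe]
        simp only [coe_symm_eq, Icc.coe_zero]
        linarith
      · have h1 : (0 : ℝ) < s := hs.1
        rw [← Subtype.coe_lt_coe]
        simp only [coe_symm_eq, Icc.coe_one]
        linarith
  have hFG : ∀ i s, s = 0 ∨ s = 1 → F (Sum.inl i) s ∈ 𝓔.G := by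
    intro i s hs
    by_cases hd : dir i
    · simp only [F, hd, if_true, Sum.elim_inl]
      exact end_mem_G 𝓔 i s hs
    · simp only [F, hd, if_false, Sum.elim_inl, rv, ContinuousMap.comp_apply]
      apply end_mem_G 𝓔 i
      rcases hs with rfl | rfl
      · exact Or.inr (by simp)
      · exact Or.inl (by simp)
  have hirr : ∀ x, ¬ lt x x := by
    intro x hx
    obtain ⟨m, hm⟩ := hx.exists
    exact lt_irrefl _ hm
  have htr : ∀ x y z, lt x y → lt y z → lt x z := by
    intro x y z hxy hyz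
    filter_upwards [hxy, hyz] with m h1 h2
    exact h1.trans h2
  have hmemi : ∀ x : J, ∀ᶠ m in (U : Filter ℕ), x.1 ∈ items (g m) := by
    intro x
    filter_upwards [hst x] with m hm
    exact mem_items.mpr ⟨_, hm, hitem _⟩
  have htot : ∀ x y, x ≠ y → lt x y ∨ lt y x := by
    intro x y hxy
    rw [← Ultrafilter.eventually_or]
    filter_upwards [hmemi x] with m hm
    have hne : idx m x.1 ≠ idx m y.1 := by
      intro h
      exact hxy (Subtype.ext (pos_inj hm h))
    exact lt_or_gt_of_ne hne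
  -- decomposition at one step
  have hdec : ∀ (x : J) m, st x.1 ∈ g m → ∃ w1 w2, g m = w1 ++ st x.1 :: w2 ∧
      (∀ z ∈ items w1, idx m z < idx m x.1) ∧ (∀ z ∈ items w2, idx m x.1 < idx m z) := by
    intro x m hm
    obtain ⟨w1, w2, hw⟩ := List.append_of_mem hm
    have hit : items (g m) = items w1 ++ x.1 :: items w2 := by
      rw [hw, items_append, items_cons (hitem _)]
    have hn := hnd m
    rw [hit] at hn
    refine ⟨w1, w2, hw, ?_, ?_⟩
    · intro z hz
      simp only [idx, hit]
      exact pos_left hn hz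
    · intro z hz
      simp only [idx, hit]
      exact pos_right hn hz
  have hne : Nonempty J := by
    by_contra hJ
    rw [not_nonempty_iff] at hJ
    have hιe : IsEmpty ι := ⟨fun i => hJ.false ⟨Sum.inl i, by simp⟩⟩
    have hit : ∀ m, ∀ z, z ∉ items (g m) := fun m z hz => hJ.false ⟨z, hitemsJ m z hz⟩
    obtain ⟨x, y, hxy⟩ := exists_pair_ne X
    have hd : 0 < dist x y := dist_pos.mpr hxy
    have hG : ∀ z, z ∈ 𝓔.G := by
      intro z hz
      obtain ⟨i, _⟩ := mem_iUnion.mp hz
      exact hιe.false i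
    obtain ⟨E, _, _, hEv⟩ := hsm (dist x y / 4) (by positivity)
    obtain ⟨m, h1, h2, h3⟩ := (hEv.and ((hcov x (hG x) (dist x y / 4) (by positivity)).and
      (hcov y (hG y) (dist x y / 4) (by positivity)))).exists
    obtain ⟨x', hx', hxd⟩ := h2
    obtain ⟨y', hy', hyd⟩ := h3
    have h4 := h1 [] (g m) [] (by simp) (fun z hz => absurd hz (hit m z)) x' hx' y' hy'
    have h5 := dist_triangle4 x x' y' y
    rw [dist_comm y' y] at h5
    linarith
  obtain ⟨h, a, b, h0, h1, hab, hba, hform, hdense⟩ := glue lt hirr htr htot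
    (fun x : J => F x.1) p (by
    intro θ hθ
    obtain ⟨E, hEf, hEMK, hEv⟩ := hsm θ hθ
    have hEvU := hEv.filter_mono hU
    have hE'f : {x : J | x.1 ∈ E}.Finite := hEf.preimage Subtype.val_injective.injOn
    refine ⟨{x : J | x.1 ∈ E}, hE'f, ?_, ?_, ?_, ?_⟩
    · intro x hx s t
      obtain ⟨m, hm1, hm2⟩ := (hEvU.and (hst x)).exists
      obtain ⟨w1, w2, hw, _, _⟩ := hdec x m hm2
      have hsmall := hm1 w1 [st x.1] w2 (by rw [hw]; simp) (by
        intro z hz
        rw [items_cons (hitem _)] at hz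
        simp only [items, List.filterMap_nil, List.mem_singleton] at hz
        rw [hz]
        exact hx)
      have hsub : range (F x.1) ⊆ 𝓔.supW [st x.1] := by
        rw [← hsupp]
        intro z hz
        exact ⟨_, by simp, hz⟩
      exact hsmall _ (hsub (mem_range_self s)) _ (hsub (mem_range_self t))
    · intro x y hxy hno
      have hnb : ∀ᶠ m in (U : Filter ℕ), ∀ z ∈ {x : J | x.1 ∈ E},
          ¬ (idx m x.1 < idx m z.1 ∧ idx m z.1 < idx m y.1) := by
        rw [eventually_all_finite hE'f]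
        intro z hz
        apply Ultrafilter.eventually_not.mpr
        intro hcon
        exact hno z hz ⟨hcon.mono fun m hm => hm.1, hcon.mono fun m hm => hm.2⟩
      obtain ⟨m, hm1, hm2, hm3, hm4, hm5⟩ :=
        (hEvU.and ((hst x).and ((hst y).and (Eventually.and hxy hnb)))).exists
      obtain ⟨w1, w2, hw, hl, hr⟩ := hdec x m hm2
      have hy2 : st y.1 ∈ w2 := by
        have hy := hm3
        rw [hw, List.mem_append, List.mem_cons] at hy
        rcases hy with hy | hy | hy
        · have := hl y.1 (mem_items.mpr ⟨_, hy, hitem _⟩)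
          omega
        · exfalso
          have e : y.1 = x.1 := by
            have := hitem y.1
            rw [hy, hitem] at this
            exact (Option.some.inj this).symm
          rw [e] at hm4
          exact lt_irrefl _ hm4
        · exact hy
      obtain ⟨v1, v2, hv⟩ := List.append_of_mem hy2
      have hw' : g m = (w1 ++ [st x.1]) ++ v1 ++ (st y.1 :: v2) := by
        rw [hw, hv]
        simp
      have hsmall := hm1 _ _ _ hw' (by
        intro z hz hzE
        have hzJ : ∀ k, z = Sum.inr k → k ∈ MK := fun k hk => hEMK k (hk ▸ hzE)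
        refine hm5 ⟨z, hzJ⟩ hzE ⟨hr z ?_, ?_⟩
        · rw [hv, items_append, List.mem_append]
          exact Or.inl hz
        · have hit : items (g m) = items (w1 ++ [st x.1] ++ v1) ++ y.1 :: items v2 := by
            rw [hw', items_append, items_cons (hitem _)]
          have hn := hnd m
          rw [hit] at hn
          simp only [idx, hit]
          refine pos_left hn ?_
          rw [items_append, List.mem_append]
          exact Or.inr hz)
      have hWm := hW m
      rw [hw'] at hWm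
      obtain ⟨z1, hz1, hz2⟩ := isW_append 𝓔 hWm
      obtain ⟨z2, hz3, hz4⟩ := isW_append 𝓔 hz1
      have e1 := isW_snoc 𝓔 hz3
      obtain ⟨e2, _⟩ := isW_cons 𝓔 hz2
      rw [e1, e2, htgt, hsrc] at hz4
      exact dist_ends 𝓔 hz4 hθ.le hsmall
    · intro x hno
      have hnb : ∀ᶠ m in (U : Filter ℕ), ∀ z ∈ {x : J | x.1 ∈ E},
          ¬ (idx m z.1 < idx m x.1) := by
        rw [eventually_all_finite hE'f]
        intro z hz
        exact Ultrafilter.eventually_not.mpr (hno z hz)
      obtain ⟨m, hm1, hm2, hm5⟩ := (hEvU.and ((hst x).and hnb)).exists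
      obtain ⟨w1, w2, hw, hl, hr⟩ := hdec x m hm2
      have hsmall := hm1 [] w1 (st x.1 :: w2) (by rw [hw]; simp) (by
        intro z hz hzE
        have hzJ : ∀ k, z = Sum.inr k → k ∈ MK := fun k hk => hEMK k (hk ▸ hzE)
        exact hm5 ⟨z, hzJ⟩ hzE (hl z hz))
      have hWm := hW m
      rw [hw] at hWm
      obtain ⟨z1, hz1, hz2⟩ := isW_append 𝓔 hWm
      obtain ⟨e2, _⟩ := isW_cons 𝓔 hz2
      rw [e2, hsrc] at hz1
      exact dist_ends 𝓔 hz1 hθ.le hsmall
    · intro x hno
      have hnb : ∀ᶠ m in (U : Filter ℕ), ∀ z ∈ {x : J | x.1 ∈ E},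
          ¬ (idx m x.1 < idx m z.1) := by
        rw [eventually_all_finite hE'f]
        intro z hz
        exact Ultrafilter.eventually_not.mpr (hno z hz)
      obtain ⟨m, hm1, hm2, hm5⟩ := (hEvU.and ((hst x).and hnb)).exists
      obtain ⟨w1, w2, hw, hl, hr⟩ := hdec x m hm2
      have hsmall := hm1 (w1 ++ [st x.1]) w2 [] (by rw [hw]; simp) (by
        intro z hz hzE
        have hzJ : ∀ k, z = Sum.inr k → k ∈ MK := fun k hk => hEMK k (hk ▸ hzE)
        exact hm5 ⟨z, hzJ⟩ hzE (hr z hz))
      have hWm := hW m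
      rw [hw] at hWm
      obtain ⟨z1, hz1, hz2⟩ := isW_append 𝓔 hWm
      obtain ⟨_, e2⟩ := isW_cons 𝓔 hz2
      rw [htgt] at e2
      exact dist_ends 𝓔 e2 hθ.le hsmall)
  have habr : ∀ x, ((a x : I) : ℝ) < b x := fun x => hab x
  -- the range
  have hrange : ∀ x : J, range (F x.1) ⊆ range h := by
    rintro x _ ⟨s, rfl⟩
    obtain ⟨hs1, hs2⟩ := stretch_surj (F x.1) (habr x) s
    have htI : (a x : ℝ) + s * (b x - a x) ∈ Icc (0 : ℝ) 1 :=
      ⟨(a x).2.1.trans hs1.1, hs1.2.trans (b x).2.2⟩
    refine ⟨⟨_, htI⟩, ?_⟩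
    rw [hform x ⟨_, htI⟩ ⟨hs1.1, hs1.2⟩]
    exact hs2
  have hcR : ∀ i, 𝓔.c i ⊆ range h := by
    intro i
    rw [← hrF]
    exact hrange ⟨Sum.inl i, by simp⟩
  have hqR : ∀ k ∈ MK, q k ∈ range h := by
    intro k hk
    refine hrange ⟨Sum.inr k, ?_⟩ ?_
    · intro k' hk'
      rw [← Sum.inr.inj hk']
      exact hk
    · exact ⟨0, rfl⟩
  have hpR : p ∈ range h := ⟨0, h0⟩
  have hstepR : ∀ m, ∀ s ∈ g m, ∀ x, s.item = some x → 𝓔.supp s ⊆ range h := by
    intro m s hs x hx
    cases s with
    | edge i b => exact hcR i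
    | jump x y => simp [Step.item] at hx
    | mark k x =>
      obtain ⟨h3, h4⟩ := hmk' m k x hs
      simp only [EdgeSys.supp, singleton_subset_iff]
      rw [h4]
      exact hqR k h3
  have hclR : IsClosed (range h) := (isCompact_range h.continuous).isClosed
  have hGR : 𝓔.G ⊆ range h := by
    intro x hx
    rw [← hclR.closure_eq, Metric.mem_closure_iff]
    intro ε hε
    obtain ⟨E, _, _, hEv⟩ := hsm (ε / 3) (by positivity)
    obtain ⟨m, hm1, y, ⟨s, hs, hys⟩, hxy⟩ := (hEv.and (hcov x hx (ε / 3) (by positivity))).exists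
    by_cases hsi : ∃ z, s.item = some z
    · obtain ⟨z, hz⟩ := hsi
      exact ⟨y, hstepR m s hs z hz hys, by linarith⟩
    · obtain ⟨w1, w3, hw⟩ := List.append_of_mem hs
      obtain ⟨u1, u2, hu, huE, hu1⟩ := split_last E w1
      have hw' : g m = u1 ++ (u2 ++ [s]) ++ w3 := by
        rw [hw, hu]
        simp
      have hsmall := hm1 _ _ _ hw' (by
        intro z hz
        rw [items_append, List.mem_append] at hz
        rcases hz with hz | hz
        · exact huE z hz
        · obtain ⟨s', hs', hsz⟩ := mem_items.mp hz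
          rw [List.mem_singleton] at hs'
          subst hs'
          exact absurd ⟨z, hsz⟩ hsi)
      have hWm := hW m
      rw [hw'] at hWm
      obtain ⟨z1, hz1, hz2⟩ := isW_append 𝓔 hWm
      obtain ⟨z2, hz3, hz4⟩ := isW_append 𝓔 hz1
      have hz2R : z2 ∈ range h := by
        rcases hu1 with hu1 | ⟨w0, s0, hu1, x0, hx0⟩
        · rw [hu1] at hz3
          rw [← isW_nil 𝓔 hz3]
          exact hpR
        · rw [hu1] at hz3
          rw [isW_snoc 𝓔 hz3]
          refine hstepR m s0 ?_ x0 hx0 (tgt_mem 𝓔 s0)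
          rw [hw', hu1]
          simp
      refine ⟨z2, hz2R, ?_⟩
      have e1 : z2 ∈ 𝓔.supW (u2 ++ [s]) := start_mem 𝓔 hz4 (by simp)
      have e2 : y ∈ 𝓔.supW (u2 ++ [s]) := ⟨s, by simp, hys⟩
      have e3 := hsmall y e2 z2 e1
      have e4 := dist_triangle x y z2
      linarith
  refine ⟨h, ?_, ?_, ?_, ?_⟩
  · rw [h0, h1]
  · intro x
    by_cases hx : x ∈ 𝓔.G
    · exact hGR hx
    · simp only [EdgeSys.G, mem_compl_iff, not_not, mem_iUnion] at hx
      obtain ⟨i, s, _, hs⟩ := hx
      exact hcR i ⟨s, hs⟩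
  · intro i
    let x : J := ⟨Sum.inl i, by simp⟩
    refine ⟨a x, b x, hab x, ?_, ?_⟩
    · apply Subset.antisymm
      · intro t ht
        by_contra htn
        by_cases htc : t ∈ Icc (a x) (b x)
        · have hend : t = a x ∨ t = b x := by
            rcases eq_or_lt_of_le htc.1 with e | e
            · exact Or.inl e.symm
            · rcases eq_or_lt_of_le htc.2 with e' | e'
              · exact Or.inr e'
              · exact absurd ⟨e, e'⟩ htn
          have hG : h t ∈ 𝓔.G := by
            rw [hform x t htc]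
            rcases hend with e | e
            · rw [e, stretch_left]
              exact hFG i 0 (Or.inl rfl)
            · rw [e, stretch_right _ (habr x)]
              exact hFG i 1 (Or.inr rfl)
          exact hG (mem_iUnion.mpr ⟨i, ht⟩)
        · have hO : IsOpen (h ⁻¹' (𝓔.o i) ∩ (Icc (a x) (b x))ᶜ) :=
            ((𝓔.opn i).preimage h.continuous).inter isClosed_Icc.isOpen_compl
          obtain ⟨t', ht', hD⟩ := hdense.inter_open_nonempty _ hO ⟨t, ht, htc⟩
          obtain ⟨y, hy⟩ := mem_iUnion.mp hD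
          have hyc : t' ∈ Icc (a y) (b y) := ⟨hy.1.le, hy.2.le⟩
          have hyr : h t' ∈ range (F y.1) := by
            rw [hform y t' hyc]
            exact stretch_mem _ _ _ _
          obtain ⟨y0 | k, hyJ⟩ := y
          · have hyi : y0 ≠ i := by
              intro hyi
              subst hyi
              exact ht'.2 hyc
            rw [hrF] at hyr
            exact c_disj_o 𝓔 hyi hyr ht'.1
          · obtain ⟨s, hs⟩ := hyr
            have hs' : q k = h t' := hs
            have : h t' ∈ 𝓔.G := hs' ▸ hqG k (hyJ k rfl)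
            exact this (mem_iUnion.mpr ⟨i, ht'.1⟩)
      · intro t ht
        obtain ⟨s, hs1, hs2⟩ := stretch_val (F (Sum.inl i)) (habr x)
          (show (t : ℝ) ∈ Icc (a x : ℝ) (b x) from ⟨ht.1.le, ht.2.le⟩)
        rw [mem_preimage, hform x t ⟨ht.1.le, ht.2.le⟩]
        change stretch (F (Sum.inl i)) (a x) (b x) t ∈ 𝓔.o i
        rw [hs2]
        apply hFo
        have e1 : (a x : ℝ) < t := ht.1
        have e2 : (t : ℝ) < b x := ht.2
        have e3 := habr x
        constructor
        · rw [← Subtype.coe_lt_coe, hs1]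
          exact div_pos (by linarith) (by linarith)
        · rw [← Subtype.coe_lt_coe, hs1]
          simp only [Icc.coe_one]
          rw [div_lt_one (by linarith)]
          linarith
    · intro t ht t' ht' heq
      obtain ⟨s, hs1, hs2⟩ := stretch_val (F (Sum.inl i)) (habr x)
        (show (t : ℝ) ∈ Icc (a x : ℝ) (b x) from ⟨ht.1.le, ht.2.le⟩)
      obtain ⟨s', hs1', hs2'⟩ := stretch_val (F (Sum.inl i)) (habr x)
        (show (t' : ℝ) ∈ Icc (a x : ℝ) (b x) from ⟨ht'.1.le, ht'.2.le⟩)
      rw [hform x t ⟨ht.1.le, ht.2.le⟩, hform x t' ⟨ht'.1.le, ht'.2.le⟩] at heq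
      change stretch (F (Sum.inl i)) (a x) (b x) t = stretch (F (Sum.inl i)) (a x) (b x) t' at heq
      rw [hs2, hs2'] at heq
      have e := hFinj i heq
      rw [e, hs1'] at hs1
      have e3 : (0 : ℝ) < b x - a x := sub_pos.mpr (habr x)
      apply Subtype.ext
      field_simp at hs1
      linarith
  · intro O hO hOn
    obtain ⟨t, ht, hD⟩ := hdense.inter_open_nonempty _ hO hOn
    obtain ⟨y, hy⟩ := mem_iUnion.mp hD
    refine ⟨t, ht, ?_⟩
    have hyc : t ∈ Icc (a y) (b y) := ⟨hy.1.le, hy.2.le⟩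
    rw [hform y t hyc]
    obtain ⟨i | k, hyJ⟩ := y
    · left
      have e3 := habr ⟨Sum.inl i, hyJ⟩
      obtain ⟨s, hs1, hs2⟩ := stretch_val (F (Sum.inl i)) e3
        (show (t : ℝ) ∈ Icc _ _ from hyc)
      change stretch (F (Sum.inl i)) _ _ t ∈ _
      rw [hs2]
      refine mem_iUnion.mpr ⟨i, hFo i s ?_⟩
      have e1 : ((a ⟨Sum.inl i, hyJ⟩ : I) : ℝ) < t := hy.1
      have e2 : (t : ℝ) < b ⟨Sum.inl i, hyJ⟩ := hy.2
      constructor
      · rw [← Subtype.coe_lt_coe, hs1]
        exact div_pos (by linarith) (by linarith)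
      · rw [← Subtype.coe_lt_coe, hs1]
        simp only [Icc.coe_one]
        rw [div_lt_one (by linarith)]
        linarith
    · right
      exact (hmk k (hyJ k rfl)).1

end Pool.Agent.EU.H55
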