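import Pool.Agent.Helper17_EU.StmtsF
import Pool.Agent.Helper55_EU.StepB

/-! # Module ORACLE2 of the squad MP_0dbebf_gt -/

open Set Metric Topology unitInterval Filter

noncomputable section

namespace Pool.Agent.EU.H55

universe u v

section intervals

/-- complementary intervals of a set of times containing `0` and `1` -/
def Gap (T : Set I) (p : I × I) : Prop := p.1 < p.2 ∧ p.1 ∈ T ∧ p.2 ∈ T ∧ Disjoint (Ioo p.1 p.2) T

theorem gap_disj {T : Set I} {p q : I × I} (hp : Gap T p) (hq : Gap T q) (h : p ≠ q) :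
    Disjoint (Ioo p.1 p.2) (Ioo q.1 q.2) := by
  rw [disjoint_left]
  intro t htp htq
  apply h
  have h1 : p.1 = q.1 := by
    rcases lt_trichotomy p.1 q.1 with h1 | h1 | h1
    · exact absurd hq.2.1 (disjoint_left.mp hp.2.2.2 ⟨h1, htq.1.trans htp.2⟩)
    · exact h1
    · exact absurd hp.2.1 (disjoint_left.mp hq.2.2.2 ⟨h1, htp.1.trans htq.2⟩)
  have h2 : p.2 = q.2 := by
    rcases lt_trichotomy p.2 q.2 with h1 | h1 | h1
    · exact absurd hp.2.2.1 (disjoint_left.mp hq.2.2.2 ⟨htq.1.trans htp.2, h1⟩)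
    · exact h1
    · exact absurd hq.2.2.1 (disjoint_left.mp hp.2.2.2 ⟨htp.1.trans htq.2, h1⟩)
  exact Prod.ext h1 h2

theorem gap_countable (T : Set I) : {p | Gap T p}.Countable := by
  have h1 : {p | Gap T p}.PairwiseDisjoint (fun p => Ioo p.1 p.2) :=
    fun p hp q hq hpq => gap_disj hp hq hpq
  exact h1.countable_of_isOpen (fun p _ => isOpen_Ioo) (fun p hp => nonempty_Ioo.mpr hp.1)

theorem gap_large_finite (T : Set I) {δ : ℝ} (hδ : 0 < δ) :
    {p | Gap T p ∧ δ ≤ (p.2 : ℝ) - p.1}.Finite := by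
  have hinj : InjOn (fun p : I × I => ⌊(p.1 : ℝ) / δ⌋₊) {p | Gap T p ∧ δ ≤ (p.2 : ℝ) - p.1} := by
    rintro p ⟨hp, hpδ⟩ q ⟨hq, hqδ⟩ hpq
    by_contra hne
    have hd := gap_disj hp hq hne
    -- the left ends differ by at least `δ`
    have aux : ∀ p q : I × I, Gap T p → Gap T q → Disjoint (Ioo p.1 p.2) (Ioo q.1 q.2) →
        δ ≤ (p.2 : ℝ) - p.1 → (p.1 : ℝ) ≤ q.1 → ⌊(p.1 : ℝ) / δ⌋₊ = ⌊(q.1 : ℝ) / δ⌋₊ → False := by
      intro p q hp hq hd hpδ hle hfl
      have hpq1 : p.2 ≤ q.1 := by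
        by_contra hlt
        rw [not_le] at hlt
        have hm : max p.1 q.1 < min p.2 q.2 := by
          rw [max_lt_iff, lt_min_iff, lt_min_iff]
          exact ⟨⟨hp.1, lt_of_le_of_lt (show p.1 ≤ q.1 from hle) hq.1⟩, hlt, hq.1⟩
        obtain ⟨t, ht⟩ := exists_between hm
        exact disjoint_left.mp hd ⟨(le_max_left _ _).trans_lt ht.1, ht.2.trans_le (min_le_left _ _)⟩
          ⟨(le_max_right _ _).trans_lt ht.1, ht.2.trans_le (min_le_right _ _)⟩
      have h1 : (p.2 : ℝ) ≤ q.1 := hpq1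
      have h2 : (p.1 : ℝ) / δ + 1 ≤ (q.1 : ℝ) / δ := by
        rw [div_add_one hδ.ne', div_le_div_iff_of_pos_right hδ]
        linarith
      have h3 : ⌊(p.1 : ℝ) / δ⌋₊ + 1 ≤ ⌊(q.1 : ℝ) / δ⌋₊ := by
        rw [← Nat.floor_add_one (div_nonneg p.1.2.1 hδ.le)]
        exact Nat.floor_le_floor h2
      omega
    rcases le_total (p.1 : ℝ) q.1 with h | h
    · exact aux p q hp hq hd hpδ h hpq
    · exact aux q p hq hp hd.symm hqδ h hpq.symm
  refine Set.Finite.of_finite_image ((Set.finite_Iic ⌊1 / δ⌋₊).subset ?_) hinj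
  rintro _ ⟨p, _, rfl⟩
  apply Nat.floor_le_floor
  exact div_le_div_of_nonneg_right p.1.2.2 hδ.le

theorem gap_end_finite (T : Set I) : {p | Gap T p ∧ (p.1 = 0 ∨ p.2 = 1)}.Finite := by
  have h1 : {p | Gap T p ∧ p.1 = 0}.Subsingleton := by
    rintro p ⟨hp, hp0⟩ q ⟨hq, hq0⟩
    by_contra hne
    have hd := gap_disj hp hq hne
    have hm : (0 : I) < min p.2 q.2 := lt_min (hp0 ▸ hp.1) (hq0 ▸ hq.1)
    obtain ⟨t, ht⟩ := exists_between hm
    refine disjoint_left.mp hd ⟨?_, ht.2.trans_le (min_le_left _ _)⟩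
      ⟨?_, ht.2.trans_le (min_le_right _ _)⟩
    · rw [hp0]
      exact ht.1
    · rw [hq0]
      exact ht.1
  have h2 : {p | Gap T p ∧ p.2 = 1}.Subsingleton := by
    rintro p ⟨hp, hp0⟩ q ⟨hq, hq0⟩
    by_contra hne
    have hd := gap_disj hp hq hne
    have hm : max p.1 q.1 < (1 : I) := max_lt (hp0 ▸ hp.1) (hq0 ▸ hq.1)
    obtain ⟨t, ht⟩ := exists_between hm
    refine disjoint_left.mp hd ⟨(le_max_left _ _).trans_lt ht.1, ?_⟩
      ⟨(le_max_right _ _).trans_lt ht.1, ?_⟩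
    · rw [hp0]
      exact ht.2
    · rw [hq0]
      exact ht.2
  refine (h1.finite.union h2.finite).subset ?_
  rintro p ⟨hp, hp0 | hp1⟩
  · exact Or.inl ⟨hp, hp0⟩
  · exact Or.inr ⟨hp, hp1⟩

theorem exists_gap {T : Set I} (hT : IsClosed T) (h0 : (0 : I) ∈ T) (h1 : (1 : I) ∈ T) {t : I}
    (ht : t ∉ T) : ∃ p, Gap T p ∧ t ∈ Ioo p.1 p.2 := by
  obtain ⟨a, ha⟩ := (hT.inter isClosed_Iic : IsClosed (T ∩ Iic t)).isCompact.exists_isGreatest
    ⟨0, h0, unitInterval.nonneg'⟩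
  obtain ⟨b, hb⟩ := (hT.inter isClosed_Ici : IsClosed (T ∩ Ici t)).isCompact.exists_isLeast
    ⟨1, h1, unitInterval.le_one'⟩
  have hat : a < t := lt_of_le_of_ne ha.1.2 (fun h => ht (h ▸ ha.1.1))
  have htb : t < b := lt_of_le_of_ne hb.1.2 (fun h => ht (h ▸ hb.1.1))
  refine ⟨(a, b), ⟨hat.trans htb, ha.1.1, hb.1.1, ?_⟩, hat, htb⟩
  rw [disjoint_left]
  rintro s ⟨hs1, hs2⟩ hsT
  rcases le_total s t with h | h
  · exact absurd (ha.2 ⟨hsT, h⟩) (not_le.mpr hs1)
  · exact absurd (hb.2 ⟨hsT, h⟩) (not_le.mpr hs2)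

end intervals

/-- a nondegenerate connected set has uncountable intersection with neighbourhoods of its points -/
theorem uncountable_of_connected {X : Type u} [MetricSpace X] {L : Set X} (hL : IsPreconnected L)
    {q0 : X} (hq : q0 ∈ L) (hn : L.Nontrivial) {ε : ℝ} (hε : 0 < ε) :
    ¬ (L ∩ ball q0 ε).Countable := by
  intro hc
  obtain ⟨z, hz, hzq⟩ := hn.exists_ne q0
  have hd : 0 < dist z q0 := dist_pos.mpr hzq
  have hm : 0 < min (dist z q0) ε := lt_min hd hε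
  have hsub : Ioo 0 (min (dist z q0) ε) ⊆ (fun x => dist x q0) '' (L ∩ ball q0 ε) := by
    intro s hs
    have him : IsPreconnected ((fun x => dist x q0) '' L) :=
      hL.image _ (by fun_prop)
    have h0 : (0 : ℝ) ∈ (fun x => dist x q0) '' L := ⟨q0, hq, dist_self _⟩
    have h1 : dist z q0 ∈ (fun x => dist x q0) '' L := ⟨z, hz, rfl⟩
    obtain ⟨x, hx, hxs⟩ := him.Icc_subset h0 h1 ⟨hs.1.le, hs.2.le.trans (min_le_left _ _)⟩
    refine ⟨x, ⟨hx, ?_⟩, hxs⟩
    rw [mem_ball]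
    have : dist x q0 = s := hxs
    rw [this]
    exact hs.2.trans_le (min_le_right _ _)
  have hcount := (hc.image (fun x => dist x q0)).mono hsub
  exact absurd (Cardinal.Real.Ioo_countable_iff.mp hcount) (not_le.mpr hm)

variable {X : Type u} [MetricSpace X] {ι : Type v} (𝓔 : EdgeSys X ι)

theorem chainA_append {x y z : X} {l1 l2 : List 𝓔.Arc} (h1 : 𝓔.ChainA x l1 y)
    (h2 : 𝓔.ChainA y l2 z) : 𝓔.ChainA x (l1 ++ l2) z := by
  induction h1 with
  | nil x => exact h2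
  | cons a l y _ ih => exact EdgeSys.ChainA.cons a (l ++ l2) z (ih h2)

theorem EL_append (l1 l2 : List 𝓔.Arc) : 𝓔.EL (l1 ++ l2) = 𝓔.EL l1 ∪ 𝓔.EL l2 := by
  ext i
  simp only [EdgeSys.EL, List.mem_append, mem_ofPred_eq, mem_union]
  constructor
  · rintro ⟨a, ha | ha, hi⟩
    · exact Or.inl ⟨a, ha, hi⟩
    · exact Or.inr ⟨a, ha, hi⟩
  · rintro (⟨a, ha, hi⟩ | ⟨a, ha, hi⟩)
    · exact ⟨a, Or.inl ha, hi⟩
    · exact ⟨a, Or.inr ha, hi⟩

theorem RL_append (l1 l2 : List 𝓔.Arc) : 𝓔.RL (l1 ++ l2) = 𝓔.RL l1 ∪ 𝓔.RL l2 := by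
  ext i
  simp only [EdgeSys.RL, List.mem_append, mem_ofPred_eq, mem_union]
  constructor
  · rintro ⟨a, ha | ha, hi⟩
    · exact Or.inl ⟨a, ha, hi⟩
    · exact Or.inr ⟨a, ha, hi⟩
  · rintro (⟨a, ha, hi⟩ | ⟨a, ha, hi⟩)
    · exact ⟨a, Or.inl ha, hi⟩
    · exact ⟨a, Or.inr ha, hi⟩

theorem edisj_append {l1 l2 : List 𝓔.Arc} (h1 : 𝓔.EDisj l1) (h2 : 𝓔.EDisj l2)
    (h : Disjoint (𝓔.EL l1) (𝓔.EL l2)) : 𝓔.EDisj (l1 ++ l2) := by
  unfold EdgeSys.EDisj
  rw [List.pairwise_append]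
  refine ⟨h1, h2, ?_⟩
  intro a ha b hb
  rw [disjoint_left]
  intro i hia hib
  exact disjoint_left.mp h ⟨a, ha, hia⟩ ⟨b, hb, hib⟩

theorem o_nonempty (i : ι) : (𝓔.o i).Nonempty := by
  have : (Ioo (0 : I) 1).Nonempty := nonempty_Ioo.mpr (by simp)
  exact this.image _

theorem EL_disj {S : Set ι} {l : List 𝓔.Arc} (h : 𝓔.RL l ⊆ 𝓔.Y S) : Disjoint S (𝓔.EL l) := by
  rw [disjoint_left]
  rintro i hi ⟨a, ha, hia⟩
  obtain ⟨x, hx⟩ := o_nonempty 𝓔 i
  apply h ⟨a, ha, hia hx⟩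
  exact mem_biUnion hi hx

/-- chains near a connected subset of the ground space -/
theorem chain_arc (hArc : 𝓔.ArcStmt) {S : Set ι} (hS : 𝓔.Thin S) {L : Set X} (hLG : L ⊆ 𝓔.G)
    (hL : IsPreconnected L) {x y : X} (hx : x ∈ L) (hy : y ∈ L) {ε : ℝ} (hε : 0 < ε) :
    ∃ l : List 𝓔.Arc, 𝓔.ChainA x l y ∧ 𝓔.EDisj l ∧ 𝓔.RL l ⊆ 𝓔.Y S ∩ thickening ε L := by
  by_cases hxy : x = y
  · subst hxy
    refine ⟨[], EdgeSys.ChainA.nil x, by simp [EdgeSys.EDisj], ?_⟩
    intro z hz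
    simp [EdgeSys.RL] at hz
  · obtain ⟨a, ha0, ha1, har⟩ := hArc S hS L (hLG.trans (G_sub_Y 𝓔 S)) hL x hx y hy (hLG hx)
      (hLG hy) hxy ε hε
    refine ⟨[a], ?_, by simp [EdgeSys.EDisj], ?_⟩
    · rw [← ha0]
      refine EdgeSys.ChainA.cons a [] y ?_
      rw [ha1]
      exact EdgeSys.ChainA.nil y
    · rintro z ⟨b, hb, hz⟩
      rw [List.mem_singleton] at hb
      subst hb
      exact har hz

/-- chains along parts of a path -/
theorem chain_path (hPA : PathArcStmt X) (h : C(I, X)) {a c : I} (hac : a ≤ c)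
    (ha : h a ∈ 𝓔.G) (hc : h c ∈ 𝓔.G) :
    ∃ l : List 𝓔.Arc, 𝓔.ChainA (h a) l (h c) ∧ 𝓔.EDisj l ∧ 𝓔.RL l ⊆ h '' Icc a c := by
  by_cases hxy : h a = h c
  · rw [hxy]
    refine ⟨[], EdgeSys.ChainA.nil _, by simp [EdgeSys.EDisj], ?_⟩
    intro z hz
    simp [EdgeSys.RL] at hz
  · have hac' : (a : ℝ) ≤ c := hac
    have hmem : ∀ s : I, (a : ℝ) + s * (c - a) ∈ Icc (a : ℝ) c := by
      intro s
      constructor
      · nlinarith [s.2.1]
      · nlinarith [s.2.2]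
    let f : C(I, X) := ⟨fun s => h ⟨a + s * (c - a), a.2.1.trans (hmem s).1, (hmem s).2.trans c.2.2⟩,
      by
        apply h.continuous.comp
        apply Continuous.subtype_mk
        fun_prop⟩
    have hf0 : f 0 = h a := by
      simp only [f, ContinuousMap.coe_mk]
      congr 1
      apply Subtype.ext
      simp
    have hf1 : f 1 = h c := by
      simp only [f, ContinuousMap.coe_mk]
      congr 1
      apply Subtype.ext
      simp
    obtain ⟨g, hg, hg0, hg1, hgr⟩ := hPA f (by rw [hf0, hf1]; exact hxy)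
    have hfr : range f ⊆ h '' Icc a c := by
      rintro _ ⟨s, rfl⟩
      exact ⟨_, ⟨(hmem s).1, (hmem s).2⟩, rfl⟩
    let b : 𝓔.Arc := ⟨g, hg, by rw [hg0, hf0]; exact ha, by rw [hg1, hf1]; exact hc⟩
    refine ⟨[b], ?_, by simp [EdgeSys.EDisj], ?_⟩
    · have e0 : h a = b.f 0 := by
        rw [← hf0, ← hg0]
      have e1 : b.f 1 = h c := by
        rw [← hf1, ← hg1]
      rw [e0]
      refine EdgeSys.ChainA.cons b [] _ ?_
      rw [e1]
      exact EdgeSys.ChainA.nil _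
    · rintro z ⟨b', hb, hz⟩
      rw [List.mem_singleton] at hb
      subst hb
      exact hfr (hgr hz)

theorem c_disj_o' {i j : ι} (h : j ≠ i) {x : X} (hx : x ∈ 𝓔.c j) : x ∉ 𝓔.o i := by
  obtain ⟨s, rfl⟩ := hx
  intro hi
  by_cases hs : s ∈ Ioo (0 : I) 1
  · exact disjoint_left.mp (𝓔.disj j i h) ⟨s, hs, rfl⟩ hi
  · have hs' : s = 0 ∨ s = 1 := by
      rw [mem_Ioo, not_and_or, not_lt, not_lt] at hs
      rcases hs with hs | hs
      · exact Or.inl (le_antisymm hs unitInterval.nonneg')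
      · exact Or.inr (le_antisymm unitInterval.le_one' hs)
    exact end_mem_G 𝓔 j s hs' (mem_iUnion.mpr ⟨i, hi⟩)

theorem isClosed_c (i : ι) : IsClosed (𝓔.c i) := (isCompact_range (𝓔.φ i).continuous).isClosed

theorem o_sub_c (i : ι) : 𝓔.o i ⊆ 𝓔.c i := image_subset_range _ _

theorem end_mem_closure (i : ι) (s : I) : 𝓔.φ i s ∈ closure (𝓔.o i) := by
  have h1 : s ∈ closure (Ioo (0 : I) 1) := by
    rw [closure_Ioo (by simp : (0 : I) ≠ 1)]
    exact ⟨s.2.1, s.2.2⟩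
  exact image_closure_subset_closure_image (𝓔.φ i).continuous ⟨s, h1, rfl⟩

/-- a tour runs through an edge from one end to the other -/
theorem edge_arc (h : C(I, X)) (hs : Function.Surjective h) {i : ι} {a b : I} (_hab : a < b)
    (hpre : h ⁻¹' (𝓔.o i) = Ioo a b) : ∃ e : 𝓔.Arc, e.f 0 = h a ∧ e.f 1 = h b ∧
      range e.f = 𝓔.c i ∧ 𝓔.c i ⊆ h '' Icc a b := by
  have hsub : 𝓔.c i ⊆ h '' Icc a b := by
    have h1 : 𝓔.o i ⊆ h '' Icc a b := by
      intro x hx
      obtain ⟨t, rfl⟩ := hs x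
      have : t ∈ Ioo a b := by
        rw [← hpre]
        exact hx
      exact ⟨t, ⟨this.1.le, this.2.le⟩, rfl⟩
    have h2 : IsClosed (h '' Icc a b) := (isCompact_Icc.image h.continuous).isClosed
    have h3 := closure_minimal h1 h2
    rintro _ ⟨s, rfl⟩
    exact h3 (end_mem_closure 𝓔 i s)
  have hend : ∀ s : I, s = 0 ∨ s = 1 → 𝓔.φ i s = h a ∨ 𝓔.φ i s = h b := by
    intro s hs'
    obtain ⟨τ, hτ, hτs⟩ := hsub ⟨s, rfl⟩
    rcases eq_or_lt_of_le hτ.1 with e | e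
    · left
      rw [← hτs, e]
    · rcases eq_or_lt_of_le hτ.2 with e' | e'
      · right
        rw [← hτs, e']
      · exfalso
        have h1 : τ ∈ h ⁻¹' (𝓔.o i) := by
          rw [hpre]
          exact ⟨e, e'⟩
        have h2 := end_mem_G 𝓔 i s hs'
        rw [← hτs] at h2
        exact h2 (mem_iUnion.mpr ⟨i, h1⟩)
  have hne : 𝓔.φ i 0 ≠ 𝓔.φ i 1 := by
    intro h'
    have := 𝓔.inj i h'
    simp at this
  let e : 𝓔.Arc := ⟨𝓔.φ i, 𝓔.inj i, end_mem_G 𝓔 i 0 (Or.inl rfl), end_mem_G 𝓔 i 1 (Or.inr rfl)⟩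
  rcases hend 0 (Or.inl rfl) with h0 | h0
  · rcases hend 1 (Or.inr rfl) with h1 | h1
    · exact absurd (h0.trans h1.symm) hne
    · exact ⟨e, h0, h1, rfl, hsub⟩
  · rcases hend 1 (Or.inr rfl) with h1 | h1
    · refine ⟨e.rev, ?_, ?_, ?_, hsub⟩
      · simpa [EdgeSys.Arc.rev, e] using h1
      · simpa [EdgeSys.Arc.rev, e] using h0
      · ext z
        simp only [EdgeSys.Arc.rev, e, mem_range, ContinuousMap.comp_apply, ContinuousMap.coe_mk,
          EdgeSys.c]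
        constructor
        · rintro ⟨s, rfl⟩
          exact ⟨σ s, rfl⟩
        · rintro ⟨s, rfl⟩
          exact ⟨σ s, by simp⟩
    · exact absurd (h0.trans h1.symm) hne

/-- ORACLE2 -/
theorem oracle2 [CompactSpace X] (hArc : 𝓔.ArcStmt) (hPA : PathArcStmt X) (hA : 𝓔.ThinArcStmt)
    (hU : 𝓔.ThinUnionStmt) : 𝓔.Oracle2Stmt := by
  rintro h ⟨_, hsurj, hint, _⟩ S hS u hu hrich ε hε
  obtain ⟨L0, hL0, hL0p, huL0, hL0n⟩ := hrich (ε / 8) (by positivity)
  set L := closure L0 with hL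
  have hLG : L ⊆ 𝓔.G := closure_minimal (hL0.trans inter_subset_left) (isClosed_G 𝓔)
  have hLb : L ⊆ ball u (ε / 4) := by
    have h1 : L ⊆ closedBall u (ε / 8) :=
      closure_minimal ((hL0.trans inter_subset_right).trans ball_subset_closedBall)
        isClosed_closedBall
    refine h1.trans (closedBall_subset_ball (by linarith))
  have hLp : IsPreconnected L := hL0p.closure
  have huL : u ∈ L := subset_closure huL0
  have hLn : L.Nontrivial := hL0n.mono subset_closure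
  have hthick : thickening (ε / 4) L ⊆ ball u ε := by
    intro z hz
    obtain ⟨z', hz', hzz⟩ := mem_thickening_iff.mp hz
    have h1 := mem_ball.mp (hLb hz')
    rw [mem_ball]
    linarith [dist_triangle z z' u]
  have hε4 : 0 < ε / 4 := by positivity
  by_cases hcase : ∃ q ∈ L, q ∉ closure (⋃ i, 𝓔.o i)
  · obtain ⟨q, hqL, hq⟩ := hcase
    obtain ⟨l1, h11, h12, h13⟩ := chain_arc 𝓔 hArc hS hLG hLp huL hqL hε4
    have hS1 : 𝓔.Thin (S ∪ 𝓔.EL l1) := hU _ _ hS (thin_EL 𝓔 hA hU l1)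
    obtain ⟨l2, h21, h22, h23⟩ := chain_arc 𝓔 hArc hS1 hLG hLp hqL huL hε4
    have hd : Disjoint (𝓔.EL l1) (𝓔.EL l2) :=
      (EL_disj 𝓔 (fun z hz => (h23 hz).1)).mono_left subset_union_right
    refine ⟨⟨u, l1, q, l2, none⟩, rfl, h11, h21, edisj_append 𝓔 h12 h22 hd, ?_, hu,
      ⟨hLG hqL, ?_⟩, ?_, ?_⟩
    · rw [RL_append]
      rintro z (hz | hz)
      · exact ⟨(h13 hz).1, hthick (h13 hz).2⟩
      · exact ⟨Y_anti 𝓔 subset_union_left (h23 hz).1, hthick (h23 hz).2⟩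
    · have := mem_ball.mp (hLb hqL)
      rw [mem_ball]
      linarith
    · intro i hi
      simp at hi
    · intro _
      exact hq
  · push Not at hcase
    -- a point of `L` outside the closure of the edges in `S`
    obtain ⟨q0, hq0L, hq0S⟩ : ∃ q0 ∈ L, q0 ∉ 𝓔.R S := by
      by_contra hcon
      push Not at hcon
      exact (not_subsingleton_iff.mpr hLn) (hS L hLG hcon hLp)
    have hNo : IsOpen ((𝓔.R S)ᶜ ∩ ball u ε) := isClosed_closure.isOpen_compl.inter isOpen_ball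
    have hq0N : q0 ∈ (𝓔.R S)ᶜ ∩ ball u ε := by
      refine ⟨hq0S, ?_⟩
      have := mem_ball.mp (hLb hq0L)
      rw [mem_ball]
      linarith
    obtain ⟨ε0, hε0, hball0⟩ := Metric.isOpen_iff.mp hNo q0 hq0N
    choose a b hab hpre hinj using hint
    set T : Set I := h ⁻¹' L ∪ {0, 1} with hT
    have hTc : IsClosed T := (isClosed_closure.preimage h.continuous).union
      (Set.toFinite {0, 1}).isClosed
    have hcount : Countable ι := by
      have h1 : Pairwise (Function.onFun Disjoint 𝓔.o) := fun i j hij => 𝓔.disj i j hij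
      exact h1.countable_of_isOpen_disjoint (fun i => 𝓔.opn i) (fun i => o_nonempty 𝓔 i)
    have hEx : (⋃ p ∈ {p | Gap T p}, ({h p.1, h p.2} : Set X)).Countable :=
      (gap_countable T).biUnion fun p _ => (Set.toFinite _).countable
    obtain ⟨q, ⟨hqL, hqb⟩, hqE⟩ : ∃ q ∈ L ∩ ball q0 ε0,
        q ∉ ⋃ p ∈ {p | Gap T p}, ({h p.1, h p.2} : Set X) := by
      by_contra hcon
      push Not at hcon
      exact uncountable_of_connected hLp hq0L hLn hε0 (hEx.mono hcon)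
    have hqgap : ∀ p, Gap T p → q ∉ h '' Icc p.1 p.2 := by
      rintro p hp ⟨t, ht, htq⟩
      apply hqE
      refine mem_biUnion (show p ∈ {p | Gap T p} from hp) ?_
      have htT : t ∈ T := Or.inl (by rw [mem_preimage, htq]; exact hqL)
      rcases eq_or_lt_of_le ht.1 with e | e
      · left
        rw [← htq, ← e]
      · rcases eq_or_lt_of_le ht.2 with e' | e'
        · right
          rw [mem_singleton_iff, ← htq, ← e']
        · exact absurd htT (disjoint_left.mp hp.2.2.2 ⟨e, e'⟩)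
    obtain ⟨ρ', hρ', hballq⟩ := Metric.isOpen_iff.mp isOpen_ball q hqb
    set ρ := ρ' / 2 with hρ
    have hρ0 : 0 < ρ := by positivity
    obtain ⟨δ, hδ, huc⟩ := Metric.uniformContinuous_iff.mp
      (CompactSpace.uniformContinuous_of_continuous h.continuous) ρ hρ0
    set Bad : Set (I × I) := {p | Gap T p ∧ (p.1 = 0 ∨ p.2 = 1)} ∪
      {p | Gap T p ∧ δ ≤ (p.2 : ℝ) - p.1} with hBad
    have hBf : Bad.Finite := (gap_end_finite T).union (gap_large_finite T hδ)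
    have hBg : ∀ p ∈ Bad, Gap T p := by
      rintro p (hp | hp)
      · exact hp.1
      · exact hp.1
    have hWo : IsOpen (ball q ρ ∩ (⋃ p ∈ Bad, h '' Icc p.1 p.2)ᶜ) := by
      refine isOpen_ball.inter (IsClosed.isOpen_compl (self := ?_))
      exact hBf.isClosed_biUnion fun p _ => (isCompact_Icc.image h.continuous).isClosed
    have hqW : q ∈ ball q ρ ∩ (⋃ p ∈ Bad, h '' Icc p.1 p.2)ᶜ := by
      refine ⟨mem_ball_self hρ0, ?_⟩
      intro hc
      simp only [mem_iUnion, exists_prop] at hc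
      obtain ⟨p, hp, hqp⟩ := hc
      exact hqgap p (hBg p hp) hqp
    obtain ⟨x, hxW, hxo⟩ := mem_closure_iff.mp (hcase q hqL) _ hWo hqW
    obtain ⟨i, hxi⟩ := mem_iUnion.mp hxo
    obtain ⟨t, rfl⟩ := hsurj x
    have hti : t ∈ Ioo (a i) (b i) := by
      rw [← hpre]
      exact hxi
    have hIooT : ∀ s ∈ Ioo (a i) (b i), s ∉ T := by
      rintro s hs (hsL | hs0 | hs1)
      · have h1 : s ∈ h ⁻¹' (𝓔.o i) := by
          rw [hpre]
          exact hs
        exact hLG hsL (mem_iUnion.mpr ⟨i, h1⟩)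
      · rw [hs0] at hs
        exact absurd hs.1 (not_lt.mpr unitInterval.nonneg')
      · rw [mem_singleton_iff] at hs1
        rw [hs1] at hs
        exact absurd hs.2 (not_lt.mpr unitInterval.le_one')
    obtain ⟨p, hp, htp⟩ := exists_gap hTc (Or.inr (Or.inl rfl)) (Or.inr (Or.inr rfl))
      (hIooT t hti)
    have hpB : p ∉ Bad := by
      intro hpB
      apply hxW.2
      exact mem_biUnion hpB ⟨t, ⟨htp.1.le, htp.2.le⟩, rfl⟩
    have hp0 : p.1 ≠ 0 := fun h' => hpB (Or.inl ⟨hp, Or.inl h'⟩)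
    have hp1 : p.2 ≠ 1 := fun h' => hpB (Or.inl ⟨hp, Or.inr h'⟩)
    have hpδ : (p.2 : ℝ) - p.1 < δ := by
      by_contra h'
      exact hpB (Or.inr ⟨hp, not_lt.mp h'⟩)
    have hp1L : h p.1 ∈ L := by
      rcases hp.2.1 with h' | h' | h'
      · exact h'
      · exact absurd h' hp0
      · rw [mem_singleton_iff] at h'
        have := hp.1
        rw [h'] at this
        exact absurd this (not_lt.mpr unitInterval.le_one')
    have hp2L : h p.2 ∈ L := by
      rcases hp.2.2.1 with h' | h' | h'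
      · exact h'
      · have := hp.1
        rw [h'] at this
        exact absurd this (not_lt.mpr unitInterval.nonneg')
      · exact absurd h' hp1
    have hpa : p.1 ≤ a i := by
      by_contra h'
      exact hIooT p.1 ⟨not_le.mp h', htp.1.trans hti.2⟩ hp.2.1
    have hpb : b i ≤ p.2 := by
      by_contra h'
      exact hIooT p.2 ⟨hti.1.trans htp.2, not_le.mp h'⟩ hp.2.2.1
    have hN : h '' Icc p.1 p.2 ⊆ (𝓔.R S)ᶜ ∩ ball u ε := by
      rintro _ ⟨s, hs, rfl⟩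
      apply hball0
      apply hballq
      rw [mem_ball]
      have h1 : dist (h s) (h t) < ρ := by
        apply huc
        rw [Subtype.dist_eq, Real.dist_eq, abs_lt]
        have e1 : (p.1 : ℝ) ≤ s := hs.1
        have e2 : (s : ℝ) ≤ p.2 := hs.2
        have e3 : (p.1 : ℝ) < t := htp.1
        have e4 : (t : ℝ) < p.2 := htp.2
        constructor <;> linarith
      have h2 := mem_ball.mp hxW.1
      linarith [dist_triangle (h s) (h t) q]
    obtain ⟨e, he0, he1, her, hci⟩ := edge_arc 𝓔 h hsurj (hab i) (hpre i)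
    have haG : h (a i) ∈ 𝓔.G := he0 ▸ e.h0
    have hbG : h (b i) ∈ 𝓔.G := he1 ▸ e.h1
    obtain ⟨l1, h11, h12, h13⟩ := chain_path 𝓔 hPA h hpa (hLG hp1L) haG
    obtain ⟨l3, h31, h32, h33⟩ := chain_path 𝓔 hPA h hpb hbG (hLG hp2L)
    have htimes : ∀ (l : List 𝓔.Arc) (c d : I), 𝓔.RL l ⊆ h '' Icc c d → ∀ j ∈ 𝓔.EL l,
        Ioo (a j) (b j) ⊆ Icc c d := by
      rintro l c d hl j ⟨e', he', hj⟩ τ hτ
      have h1 : h τ ∈ 𝓔.o j := by
        have : τ ∈ h ⁻¹' (𝓔.o j) := by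
          rw [hpre]
          exact hτ
        exact this
      obtain ⟨τ', hτ', heq⟩ := hl ⟨e', he', hj h1⟩
      have h2 : τ' ∈ Ioo (a j) (b j) := by
        rw [← hpre, mem_preimage, heq]
        exact h1
      have := hinj j hτ h2 heq.symm
      rw [this]
      exact hτ'
    have hEe : ∀ j ∈ 𝓔.EL [e], j = i := by
      rintro j ⟨e', he', hj⟩
      rw [List.mem_singleton] at he'
      subst he'
      by_contra hne
      obtain ⟨z, hz⟩ := o_nonempty 𝓔 j
      have hz' : z ∈ 𝓔.c i := her ▸ hj hz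
      exact c_disj_o' 𝓔 (fun h' => hne h'.symm) hz' hz
    set mid := l1 ++ ([e] ++ l3) with hmid
    have hmidR : 𝓔.RL mid ⊆ h '' Icc p.1 p.2 := by
      rw [hmid, RL_append, RL_append]
      rintro z (hz | hz | hz)
      · obtain ⟨s, hs, rfl⟩ := h13 hz
        exact ⟨s, ⟨hs.1, hs.2.trans ((hab i).le.trans hpb)⟩, rfl⟩
      · obtain ⟨e', he', hz⟩ := hz
        rw [List.mem_singleton] at he'
        subst he'
        rw [her] at hz
        obtain ⟨s, hs, rfl⟩ := hci hz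
        exact ⟨s, ⟨hpa.trans hs.1, hs.2.trans hpb⟩, rfl⟩
      · obtain ⟨s, hs, rfl⟩ := h33 hz
        exact ⟨s, ⟨(hpa.trans (hab i).le).trans hs.1, hs.2⟩, rfl⟩
    have hmidY : 𝓔.RL mid ⊆ 𝓔.Y S := by
      intro z hz
      have h1 := (hN (hmidR hz)).1
      intro h2
      exact h1 (subset_closure h2)
    have hmidd : 𝓔.EDisj mid := by
      apply edisj_append 𝓔 h12
      · apply edisj_append 𝓔 _ h32
        · rw [disjoint_left]
          intro j hj1 hj3
          have e1 := hEe j hj1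
          subst e1
          obtain ⟨τ, hτ⟩ := exists_between (hab j)
          have := htimes l3 _ _ h33 j hj3 hτ
          exact absurd hτ.2 (not_lt.mpr this.1)
        · simp [EdgeSys.EDisj]
      · rw [disjoint_left]
        intro j hj1 hj3
        rw [EL_append] at hj3
        obtain ⟨τ, hτ⟩ := exists_between (hab j)
        have h1 := htimes l1 _ _ h13 j hj1 hτ
        rcases hj3 with hj3 | hj3
        · have e1 := hEe j hj3
          subst e1
          exact absurd hτ.1 (not_lt.mpr h1.2)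
        · have h2 := htimes l3 _ _ h33 j hj3 hτ
          exact absurd (h1.2.trans_lt (hab i)) (not_lt.mpr h2.1)
    have hmidc : 𝓔.ChainA (h p.1) mid (h p.2) := by
      refine chainA_append 𝓔 h11 (chainA_append 𝓔 (y := h (b i)) ?_ h31)
      rw [← he0]
      refine EdgeSys.ChainA.cons e [] _ ?_
      rw [he1]
      exact EdgeSys.ChainA.nil _
    have hmidi : i ∈ 𝓔.EL mid := by
      refine ⟨e, by simp [hmid], ?_⟩
      intro z hz
      rw [her]
      exact o_sub_c 𝓔 i hz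
    have hS1 : 𝓔.Thin (S ∪ 𝓔.EL mid) := hU _ _ hS (thin_EL 𝓔 hA hU mid)
    obtain ⟨β1, k11, k12, k13⟩ := chain_arc 𝓔 hArc hS1 hLG hLp huL hp1L hε4
    have hS2 : 𝓔.Thin ((S ∪ 𝓔.EL mid) ∪ 𝓔.EL β1) := hU _ _ hS1 (thin_EL 𝓔 hA hU β1)
    obtain ⟨β2, k21, k22, k23⟩ := chain_arc 𝓔 hArc hS2 hLG hLp hp2L huL hε4
    have d1 : Disjoint (S ∪ 𝓔.EL mid) (𝓔.EL β1) := EL_disj 𝓔 (fun z hz => (k13 hz).1)
    have d2 : Disjoint ((S ∪ 𝓔.EL mid) ∪ 𝓔.EL β1) (𝓔.EL β2) :=
      EL_disj 𝓔 (fun z hz => (k23 hz).1)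
    have hSS1 : 𝓔.Y (S ∪ 𝓔.EL mid) ⊆ 𝓔.Y S := Y_anti 𝓔 subset_union_left
    have hSS2 : 𝓔.Y ((S ∪ 𝓔.EL mid) ∪ 𝓔.EL β1) ⊆ 𝓔.Y S :=
      Y_anti 𝓔 (subset_union_left.trans subset_union_left)
    refine ⟨⟨u, β1 ++ (mid ++ β2), u, [], some i⟩, rfl, ?_, EdgeSys.ChainA.nil u, ?_, ?_, hu,
      ⟨hu, mem_ball_self hε⟩, ?_, ?_⟩
    · exact chainA_append 𝓔 k11 (chainA_append 𝓔 hmidc k21)
    · rw [List.append_nil]
      apply edisj_append 𝓔 k12
      · apply edisj_append 𝓔 hmidd k22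
        exact d2.mono_left (subset_union_right.trans subset_union_left)
      · rw [EL_append]
        rw [disjoint_union_right]
        exact ⟨(d1.mono_left subset_union_right).symm, d2.mono_left subset_union_right⟩
    · rw [List.append_nil, RL_append, RL_append]
      rintro z (hz | hz | hz)
      · exact ⟨hSS1 (k13 hz).1, hthick (k13 hz).2⟩
      · exact ⟨hmidY hz, (hN (hmidR hz)).2⟩
      · exact ⟨hSS2 (k23 hz).1, hthick (k23 hz).2⟩
    · intro j hj
      simp only [Option.some.injEq] at hj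
      subst hj
      rw [List.append_nil, EL_append, EL_append]
      exact Or.inr (Or.inl hmidi)
    · intro hj
      simp at hj

end Pool.Agent.EU.H55
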