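import Pool.Agent.Helper55_EU.Arc

/-! # Modules NET and RL of the squad MP_0dbebf_gt -/

open Set Metric Topology unitInterval Filter

noncomputable section

namespace Pool.Agent.EU.H55

universe u v

variable {X : Type u} [MetricSpace X] {ι : Type v} (𝓔 : EdgeSys X ι)

theorem G_sub_Y (S : Set ι) : 𝓔.G ⊆ 𝓔.Y S := by
  unfold EdgeSys.G EdgeSys.Y
  apply compl_subset_compl.mpr
  exact iUnion₂_subset fun i _ => subset_iUnion _ i

theorem Y_anti {S T : Set ι} (h : S ⊆ T) : 𝓔.Y T ⊆ 𝓔.Y S := by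
  unfold EdgeSys.Y
  apply compl_subset_compl.mpr
  exact biUnion_subset_biUnion_left h

theorem isClosed_G : IsClosed 𝓔.G := by
  unfold EdgeSys.G
  rw [isClosed_compl_iff]
  exact isOpen_iUnion fun i => 𝓔.opn i

theorem small_mono {r s : ℝ} (h : r ≤ s) {A : Set X} (hA : Small r A) : Small s A :=
  fun y hy z hz => (hA y hy z hz).trans h

theorem small_subset {r : ℝ} {A B : Set X} (h : A ⊆ B) (hB : Small r B) : Small r A :=
  fun y hy z hz => hB y (h hy) z (h hz)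

theorem small_closure {r : ℝ} {A : Set X} (hA : Small r A) : Small r (closure A) := by
  intro y hy z hz
  have h1 : closure A ×ˢ closure A ⊆ {p : X × X | dist p.1 p.2 ≤ r} := by
    rw [← closure_prod_eq]
    apply closure_minimal
    · rintro ⟨a, b⟩ ⟨ha, hb⟩
      exact hA a ha b hb
    · exact isClosed_le continuous_dist continuous_const
  exact h1 (show (y, z) ∈ closure A ×ˢ closure A from ⟨hy, hz⟩)

theorem small_union {r s : ℝ} {A B : Set X} (hA : Small r A) (hB : Small s B)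
    (h : (A ∩ B).Nonempty) (hr : 0 ≤ r) (hs : 0 ≤ s) : Small (r + s) (A ∪ B) := by
  obtain ⟨c, hcA, hcB⟩ := h
  intro y hy z hz
  rcases hy with hy | hy <;> rcases hz with hz | hz
  · linarith [hA y hy z hz]
  · linarith [hA y hy c hcA, hB c hcB z hz, dist_triangle y c z]
  · linarith [hB y hy c hcB, hA c hcA z hz, dist_triangle y c z]
  · linarith [hB y hy z hz]

theorem comp_sub (S : Set ι) (x : X) : 𝓔.comp S x ⊆ 𝓔.Y S := connectedComponentIn_subset _ _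

theorem mem_comp {S : Set ι} {x : X} (hx : x ∈ 𝓔.Y S) : x ∈ 𝓔.comp S x :=
  mem_connectedComponentIn hx

theorem comp_pre (S : Set ι) (x : X) : IsPreconnected (𝓔.comp S x) :=
  isPreconnected_connectedComponentIn

theorem sub_comp {S : Set ι} {C : Set X} (hC : C ⊆ 𝓔.Y S) (hC' : IsPreconnected C) {x : X}
    (hx : x ∈ C) : C ⊆ 𝓔.comp S x := hC'.subset_connectedComponentIn hx hC

theorem comp_eq {S : Set ι} {x y : X} (h : y ∈ 𝓔.comp S x) : 𝓔.comp S y = 𝓔.comp S x :=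
  (connectedComponentIn_eq h).symm

theorem comp_anti {S T : Set ι} (h : S ⊆ T) {x : X} (hx : x ∈ 𝓔.Y T) :
    𝓔.comp T x ⊆ 𝓔.comp S x :=
  sub_comp 𝓔 ((comp_sub 𝓔 T x).trans (Y_anti 𝓔 h)) (comp_pre 𝓔 T x) (mem_comp 𝓔 hx)

/-- finite `δ`-nets of the ground parts of the big components -/
theorem exists_net [CompactSpace X] (hY1 : 𝓔.Y1Stmt) (hY2 : 𝓔.Y2Stmt) {S : Set ι}
    (hS : 𝓔.Thin S) {θ r : ℝ} (hθ : 0 < θ) (hr : 0 < r) :
    ∃ W : Set X, W.Finite ∧ W ⊆ 𝓔.G ∧ (∀ w ∈ W, ¬ Small r (𝓔.comp S w)) ∧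
      ∀ x ∈ 𝓔.G, ¬ Small r (𝓔.comp S x) →
        ∃ w ∈ W, ∃ C ⊆ 𝓔.Y S, IsPreconnected C ∧ x ∈ C ∧ w ∈ C ∧ Small θ C := by
  obtain ⟨δ, hδ, h1⟩ := hY1 S hS θ hθ
  have h2 := hY2 S hS r hr
  have net : ∀ Z : Set X, ∃ W : Set X, W.Finite ∧ W ⊆ Z ∩ 𝓔.G ∧
      ∀ x ∈ Z ∩ 𝓔.G, ∃ w ∈ W, dist x w < δ := by
    intro Z
    have htb : TotallyBounded (Z ∩ 𝓔.G) :=
      isCompact_univ.totallyBounded.subset (subset_univ _)
    obtain ⟨W, hWZ, hWf, hW⟩ := Metric.totallyBounded_iff.mp htb |> fun _ =>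
      finite_approx_of_totallyBounded htb δ hδ
    refine ⟨W, hWf, hWZ, ?_⟩
    intro x hx
    have := hW hx
    simp only [mem_iUnion, exists_prop] at this
    obtain ⟨w, hw, hxw⟩ := this
    exact ⟨w, hw, hxw⟩
  choose N hNf hNZ hN using net
  refine ⟨⋃ Z ∈ {Z | ∃ x ∈ 𝓔.Y S, Z = 𝓔.comp S x ∧ ¬ Small r Z}, N Z, ?_, ?_, ?_, ?_⟩
  · exact h2.biUnion fun Z _ => hNf Z
  · refine iUnion₂_subset fun Z _ => (hNZ Z).trans inter_subset_right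
  · intro w hw
    simp only [mem_iUnion, exists_prop] at hw
    obtain ⟨Z, ⟨x, hx, rfl, hZ⟩, hw⟩ := hw
    rw [comp_eq 𝓔 (hNZ _ hw).1]
    exact hZ
  · intro x hx hns
    have hxY := G_sub_Y 𝓔 S hx
    obtain ⟨w, hw, hd⟩ := hN (𝓔.comp S x) x ⟨mem_comp 𝓔 hxY, hx⟩
    refine ⟨w, ?_, ?_⟩
    · simp only [mem_iUnion, exists_prop]
      exact ⟨_, ⟨x, hxY, rfl, hns⟩, hw⟩
    · exact h1 x w hxY (hNZ _ hw).1 hd

/-- NET -/
theorem net [CompactSpace X] (hY1 : 𝓔.Y1Stmt) (hY2 : 𝓔.Y2Stmt) : 𝓔.NetStmt := by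
  intro S hS θ hθ
  obtain ⟨W, hWf, hWG, _, hW⟩ := exists_net 𝓔 hY1 hY2 hS hθ hθ
  refine ⟨W, hWf, hWG, ?_⟩
  intro x hx
  by_cases hs : Small θ (𝓔.comp S x)
  · by_cases hv : ∃ v ∈ W, v ∈ 𝓔.comp S x
    · exact Or.inl ⟨_, comp_sub 𝓔 S x, comp_pre 𝓔 S x, mem_comp 𝓔 (G_sub_Y 𝓔 S hx), hv, hs⟩
    · exact Or.inr ⟨fun v hv' hc => hv ⟨v, hv', hc⟩, hs⟩
  · obtain ⟨w, hw, C, hCY, hC, hxC, hwC, hCs⟩ := hW x hx hs
    exact Or.inl ⟨C, hCY, hC, hxC, ⟨w, hw, hwC⟩, hCs⟩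

theorem thin_empty : 𝓔.Thin ∅ := by
  intro C _ hC _ x hx
  have := hC hx
  simp [EdgeSys.R] at this

theorem EL_nil : 𝓔.EL [] = ∅ := by
  ext i
  simp [EdgeSys.EL]

theorem EL_cons (a : 𝓔.Arc) (l : List 𝓔.Arc) : 𝓔.EL (a :: l) = a.E ∪ 𝓔.EL l := by
  ext i
  simp [EdgeSys.EL]

theorem thin_EL (hA : 𝓔.ThinArcStmt) (hU : 𝓔.ThinUnionStmt) (l : List 𝓔.Arc) :
    𝓔.Thin (𝓔.EL l) := by
  induction l with
  | nil =>
    rw [EL_nil]
    exact thin_empty 𝓔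
  | cons a l ih =>
    rw [EL_cons]
    exact hU _ _ (hA a) ih

theorem isClosed_RL (l : List 𝓔.Arc) : IsClosed (𝓔.RL l) := by
  have : 𝓔.RL l = ⋃ a ∈ {a | a ∈ l}, range a.f := by
    ext x
    simp [EdgeSys.RL]
  rw [this]
  refine (List.finite_toSet l).isClosed_biUnion fun a _ => ?_
  exact (isCompact_range a.f.continuous).isClosed

theorem iUnion_EL_sub_RL (l : List 𝓔.Arc) : (⋃ i ∈ 𝓔.EL l, 𝓔.o i) ⊆ 𝓔.RL l := by
  refine iUnion₂_subset fun i hi => ?_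
  obtain ⟨a, ha, hia⟩ := hi
  intro x hx
  exact ⟨a, ha, hia hx⟩

theorem Y_union (S T : Set ι) : 𝓔.Y (S ∪ T) = 𝓔.Y S \ ⋃ i ∈ T, 𝓔.o i := by
  unfold EdgeSys.Y
  rw [biUnion_union, compl_union]
  rfl

/-- a ground point on an arc, if it lies in no edge of the arc -/
theorem mem_G_of_arc (hD : 𝓔.ArcDichStmt) (l : List 𝓔.Arc) {y : X} (hy : y ∈ 𝓔.RL l)
    (hy' : y ∉ ⋃ i ∈ 𝓔.EL l, 𝓔.o i) : y ∈ 𝓔.G := by
  intro hc
  simp only [mem_iUnion] at hc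
  obtain ⟨i, hi⟩ := hc
  obtain ⟨a, ha, hya⟩ := hy
  rcases hD a i with h | h
  · apply hy'
    simp only [mem_iUnion, exists_prop]
    exact ⟨i, ⟨a, ha, h⟩, hi⟩
  · exact disjoint_left.mp h hi hya

/-- RL -/
theorem rl [CompactSpace X] (hY1 : 𝓔.Y1Stmt) (hY2 : 𝓔.Y2Stmt) (hT : TouchStmt X)
    (hA : 𝓔.ThinArcStmt) (hU : 𝓔.ThinUnionStmt) (hD : 𝓔.ArcDichStmt) : 𝓔.RLStmt := by
  intro S V r l hS _ hr hroot _ θ hθ
  set S' := S ∪ 𝓔.EL l with hS'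
  have hthin : 𝓔.Thin S' := hU _ _ hS (thin_EL 𝓔 hA hU l)
  have hrθ : 0 < r + θ := by positivity
  obtain ⟨W, hWf, hWG, hWb, hW⟩ := exists_net 𝓔 hY1 hY2 hthin hθ hrθ
  -- for each net point either a direct connection or a new root
  have key : ∀ w ∈ W, ∃ (B : Set X), B.Finite ∧ B ⊆ 𝓔.G ∩ 𝓔.RL l ∧
      ∃ C ⊆ 𝓔.Y S', IsPreconnected C ∧ w ∈ C ∧ (∃ v ∈ V ∪ B, v ∈ C) ∧ Small r C := by
    intro w hw
    have hwG := hWG hw
    rcases hroot w hwG with ⟨C, hCY, hC, hwC, ⟨v, hvV, hvC⟩, hCs⟩ | ⟨_, hsm⟩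
    · set C' := closure C with hC'
      have hC'Y : C' ⊆ 𝓔.Y S := closure_minimal hCY (isClosed_Y 𝓔 S)
      have hC'p : IsPreconnected C' := hC.closure
      have hC's : Small r C' := small_closure hCs
      have hwC' : w ∈ C' := subset_closure hwC
      by_cases hdis : Disjoint C' (⋃ i ∈ 𝓔.EL l, 𝓔.o i)
      · refine ⟨∅, finite_empty, empty_subset _, C', ?_, hC'p, hwC', ?_, hC's⟩
        · rw [hS', Y_union]
          exact fun z hz => ⟨hC'Y hz, disjoint_left.mp hdis hz⟩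
        · exact ⟨v, Or.inl hvV, subset_closure hvC⟩
      · rw [not_disjoint_iff] at hdis
        obtain ⟨z, hzC, hzD⟩ := hdis
        have hDo : IsOpen (⋃ i ∈ 𝓔.EL l, 𝓔.o i) := isOpen_biUnion fun i _ => 𝓔.opn i
        have hwD : w ∉ ⋃ i ∈ 𝓔.EL l, 𝓔.o i := by
          intro hh
          simp only [mem_iUnion, exists_prop] at hh
          obtain ⟨i, _, hi⟩ := hh
          apply hwG
          exact mem_iUnion.mpr ⟨i, hi⟩
        obtain ⟨y, hy, hyR⟩ := hT C' (⋃ i ∈ 𝓔.EL l, 𝓔.o i) (𝓔.RL l) isClosed_closure.isCompact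
          hC'p hDo (isClosed_RL 𝓔 l)
          (closure_minimal (iUnion_EL_sub_RL 𝓔 l) (isClosed_RL 𝓔 l))
          ⟨z, hzC, iUnion_EL_sub_RL 𝓔 l hzD⟩ w ⟨hwC', hwD⟩
        have hsub : connectedComponentIn (C' \ ⋃ i ∈ 𝓔.EL l, 𝓔.o i) w ⊆
            C' \ ⋃ i ∈ 𝓔.EL l, 𝓔.o i := connectedComponentIn_subset _ _
        have hyG : y ∈ 𝓔.G := mem_G_of_arc 𝓔 hD l hyR (hsub hy).2
        refine ⟨{y}, finite_singleton y, ?_, connectedComponentIn (C' \ ⋃ i ∈ 𝓔.EL l, 𝓔.o i) w,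
          ?_, isPreconnected_connectedComponentIn, mem_connectedComponentIn ⟨hwC', hwD⟩, ?_, ?_⟩
        · rw [singleton_subset_iff]
          exact ⟨hyG, hyR⟩
        · rw [hS', Y_union]
          exact fun z hz => ⟨hC'Y (hsub hz).1, (hsub hz).2⟩
        · exact ⟨y, Or.inr rfl, hy⟩
        · exact small_subset (fun z hz => (hsub hz).1) hC's
    · exfalso
      apply hWb w hw
      refine small_subset ?_ (small_mono (by linarith : r ≤ r + θ) hsm)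
      exact comp_anti 𝓔 subset_union_left (G_sub_Y 𝓔 _ hwG)
  choose! B hBf hBG C hCY hC hwC hvC hCs using key
  refine ⟨⋃ w ∈ W, B w, hWf.biUnion fun w hw => hBf w hw,
    iUnion₂_subset fun w hw => hBG w hw, ?_⟩
  intro x hx
  by_cases hs : Small (r + θ) (𝓔.comp S' x)
  · by_cases hv : ∃ v ∈ V ∪ ⋃ w ∈ W, B w, v ∈ 𝓔.comp S' x
    · exact Or.inl ⟨_, comp_sub 𝓔 S' x, comp_pre 𝓔 S' x, mem_comp 𝓔 (G_sub_Y 𝓔 S' hx), hv, hs⟩
    · exact Or.inr ⟨fun v hv' hc => hv ⟨v, hv', hc⟩, hs⟩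
  · obtain ⟨w, hw, D, hDY, hDp, hxD, hwD, hDs⟩ := hW x hx hs
    obtain ⟨v, hv, hvC'⟩ := hvC w hw
    refine Or.inl ⟨C w ∪ D, union_subset (hCY w hw) hDY, (hC w hw).union w (hwC w hw) hwD hDp,
      Or.inr hxD, ⟨v, ?_, Or.inl hvC'⟩, ?_⟩
    · rcases hv with hv | hv
      · exact Or.inl hv
      · refine Or.inr ?_
        simp only [mem_iUnion, exists_prop]
        exact ⟨w, hw, hv⟩
    · exact small_union (hCs w hw) hDs ⟨w, hwC w hw, hwD⟩ hr.le hθ.le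

end Pool.Agent.EU.H55
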